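import Mathlib

set_option autoImplicit false

namespace Pool.Agent.V11234.HD

open Metric Set Complex Filter Topology

/-- A local form of Bloch's theorem. -/
theorem bloch_local {g : ℂ → ℂ} {p : ℂ} {t : ℝ} (ht : 0 < t)
    (hg : DifferentiableOn ℂ g (ball p t))
    (hN : ∀ z ∈ ball p t, ‖deriv g z‖ ≤ 2 * ‖deriv g p‖) (hne : deriv g p ≠ 0) :
    ball (g p) (‖deriv g p‖ * t / 24) ⊆ g '' (ball p t) := by
  set N := ‖deriv g p‖ with hNdef
  have hNpos : 0 < N := norm_pos_iff.mpr hne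
  have hp : p ∈ ball p t := mem_ball_self ht
  have hd : DifferentiableOn ℂ (deriv g) (ball p t) := hg.deriv isOpen_ball
  have hmaps : MapsTo (deriv g) (ball p t) (closedBall (deriv g p) (3 * N)) := by
    intro z hz
    rw [mem_closedBall, dist_eq_norm]
    calc ‖deriv g z - deriv g p‖ ≤ ‖deriv g z‖ + ‖deriv g p‖ := norm_sub_le _ _
      _ ≤ 2 * N + N := by have := hN z hz; linarith
      _ = 3 * N := by ring
  have hlip : ∀ z ∈ ball p t, ‖deriv g z - deriv g p‖ ≤ 3 * N / t * ‖z - p‖ := by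
    intro z hz
    have := Complex.dist_le_div_mul_dist_of_mapsTo_ball hd hmaps hz
    rwa [dist_eq_norm, dist_eq_norm] at this
  set s := t / 6 with hs
  have hs0 : 0 < s := by positivity
  have hst : s < t := by rw [hs]; linarith
  have hsub : closedBall p s ⊆ ball p t := closedBall_subset_ball hst
  have key : ∀ z ∈ closedBall p s, ‖g z - g p - deriv g p * (z - p)‖ ≤ 3 * N / t * s * ‖z - p‖ := by
    intro z hz
    have hconv : Convex ℝ (closedBall p s) := convex_closedBall p s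
    have h1 : ∀ x ∈ closedBall p s,
        HasDerivWithinAt (fun x => g x - deriv g p * x) (deriv g x - deriv g p) (closedBall p s) x := by
      intro x hx
      have hx' : DifferentiableAt ℂ g x := hg.differentiableAt (isOpen_ball.mem_nhds (hsub hx))
      have := (hx'.hasDerivAt.fun_sub ((hasDerivAt_id' x).const_mul (deriv g p)))
      rw [mul_one] at this
      exact this.hasDerivWithinAt
    have h2 : ∀ x ∈ closedBall p s, ‖deriv g x - deriv g p‖ ≤ 3 * N / t * s := by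
      intro x hx
      refine (hlip x (hsub hx)).trans ?_
      have : ‖x - p‖ ≤ s := by rwa [← dist_eq_norm, ← mem_closedBall]
      gcongr
    have := hconv.norm_image_sub_le_of_norm_hasDerivWithin_le h1 h2 (mem_closedBall_self hs0.le) hz
    calc ‖g z - g p - deriv g p * (z - p)‖
        = ‖(g z - deriv g p * z) - (g p - deriv g p * p)‖ := by congr 1; ring
      _ ≤ _ := this
  have hdiff : DiffContOnCl ℂ g (ball p s) := by
    refine (hg.mono ?_).diffContOnCl
    rw [closure_ball _ hs0.ne']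
    exact hsub
  have hsph : ∀ z ∈ sphere p s, N * t / 12 ≤ ‖g z - g p‖ := by
    intro z hz
    have hz1 : ‖z - p‖ = s := by rwa [← dist_eq_norm]
    have hz2 := key z (sphere_subset_closedBall hz)
    rw [hz1] at hz2
    have h3 : ‖deriv g p * (z - p)‖ = N * s := by rw [norm_mul, hz1]
    have h4 : ‖deriv g p * (z - p)‖ - ‖g z - g p‖ ≤ ‖g z - g p - deriv g p * (z - p)‖ := by
      rw [norm_sub_rev (g z - g p)]
      exact norm_sub_norm_le _ _
    have h5 : 3 * N / t * s * s = N * t / 12 := by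
      rw [hs]; field_simp; ring
    have h6 : N * s = N * t / 6 := by rw [hs]; ring
    nlinarith
  have hfreq : ∃ᶠ z in 𝓝 p, g z ≠ g p := by
    have hx' : DifferentiableAt ℂ g p := hg.differentiableAt (isOpen_ball.mem_nhds hp)
    have := (hx'.hasDerivAt.eventually_ne hne (c := g p))
    exact this.frequently.filter_mono nhdsWithin_le_nhds
  have := hdiff.ball_subset_image_closedBall hs0 hsph hfreq
  refine Subset.trans ?_ (this.trans (image_mono hsub))
  apply ball_subset_ball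
  linarith

/-- Bloch's theorem. -/
theorem bloch {g : ℂ → ℂ} (hg : DifferentiableOn ℂ g (ball 0 1)) :
    ∃ w, ball w (‖deriv g 0‖ / 96) ⊆ g '' (ball 0 1) := by
  by_cases h0 : deriv g 0 = 0
  · exact ⟨0, by simp [h0]⟩
  have hN0 : 0 < ‖deriv g 0‖ := norm_pos_iff.mpr h0
  have hsub : closedBall (0 : ℂ) (1 / 2) ⊆ ball 0 1 := closedBall_subset_ball (by norm_num)
  have hd : DifferentiableOn ℂ (deriv g) (ball 0 1) := hg.deriv isOpen_ball
  have hcont : ContinuousOn (fun z => (1 / 2 - ‖z‖) * ‖deriv g z‖) (closedBall (0 : ℂ) (1 / 2)) :=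
    (continuous_const.sub continuous_norm).continuousOn.mul (hd.continuousOn.mono hsub).norm
  obtain ⟨p, hp, hmax⟩ := (isCompact_closedBall (0 : ℂ) (1 / 2)).exists_isMaxOn
    ⟨0, mem_closedBall_self (by norm_num)⟩ hcont
  have hmax0 : 1 / 2 * ‖deriv g 0‖ ≤ (1 / 2 - ‖p‖) * ‖deriv g p‖ := by
    have := hmax (mem_closedBall_self (by norm_num) : (0 : ℂ) ∈ closedBall (0 : ℂ) (1 / 2))
    simpa using this
  have hp1 : ‖p‖ ≤ 1 / 2 := by simpa using hp
  have hpos : 0 < (1 / 2 - ‖p‖) * ‖deriv g p‖ := lt_of_lt_of_le (by positivity) hmax0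
  have hp2 : 0 < 1 / 2 - ‖p‖ := by
    by_contra hcon
    have : (1 / 2 - ‖p‖) * ‖deriv g p‖ ≤ 0 :=
      mul_nonpos_of_nonpos_of_nonneg (not_lt.mp hcon) (norm_nonneg _)
    linarith
  have hne : deriv g p ≠ 0 := by
    intro h
    rw [h, norm_zero, mul_zero] at hpos
    exact lt_irrefl _ hpos
  set t := (1 / 2 - ‖p‖) / 2 with ht
  have ht0 : 0 < t := by positivity
  have hball : ball p t ⊆ ball 0 1 := by
    intro z hz
    rw [mem_ball, dist_eq_norm] at hz
    rw [mem_ball_zero_iff]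
    calc ‖z‖ = ‖(z - p) + p‖ := by ring_nf
      _ ≤ ‖z - p‖ + ‖p‖ := norm_add_le _ _
      _ < t + ‖p‖ := by linarith
      _ ≤ 1 := by rw [ht]; linarith
  have hN : ∀ z ∈ ball p t, ‖deriv g z‖ ≤ 2 * ‖deriv g p‖ := by
    intro z hz
    rw [mem_ball, dist_eq_norm] at hz
    have hz1 : ‖z‖ ≤ t + ‖p‖ := by
      calc ‖z‖ = ‖(z - p) + p‖ := by ring_nf
        _ ≤ ‖z - p‖ + ‖p‖ := norm_add_le _ _
        _ ≤ t + ‖p‖ := by linarith
    have hz2 : t ≤ 1 / 2 - ‖z‖ := by rw [ht] at hz1 ⊢; linarith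
    have hz3 : z ∈ closedBall (0 : ℂ) (1 / 2) := by
      rw [mem_closedBall_zero_iff]; linarith
    have hz4 : (1 / 2 - ‖z‖) * ‖deriv g z‖ ≤ (1 / 2 - ‖p‖) * ‖deriv g p‖ := hmax hz3
    have hz5 : t * ‖deriv g z‖ ≤ 2 * t * ‖deriv g p‖ := by
      calc t * ‖deriv g z‖ ≤ (1 / 2 - ‖z‖) * ‖deriv g z‖ := by gcongr
        _ ≤ (1 / 2 - ‖p‖) * ‖deriv g p‖ := hz4
        _ = 2 * t * ‖deriv g p‖ := by rw [ht]; ring
    have : t * ‖deriv g z‖ ≤ t * (2 * ‖deriv g p‖) := by linarith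
    exact le_of_mul_le_mul_left this ht0
  refine ⟨g p, Subset.trans (ball_subset_ball ?_)
    ((bloch_local ht0 (hg.mono hball) hN hne).trans (image_mono hball))⟩
  rw [ht]
  linarith

/-- If the image of `g` contains no ball of radius `2` then the derivative at `0` is bounded. -/
theorem deriv_zero_le {g : ℂ → ℂ} (hg : DifferentiableOn ℂ g (ball 0 1))
    (hno : ∀ w, ¬ ball w 2 ⊆ g '' (ball 0 1)) : ‖deriv g 0‖ ≤ 192 := by
  by_contra hcon
  obtain ⟨w, hw⟩ := bloch hg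
  exact hno w (Subset.trans (ball_subset_ball (by linarith)) hw)

theorem deriv_le {g : ℂ → ℂ} (hg : DifferentiableOn ℂ g (ball 0 1))
    (hno : ∀ w, ¬ ball w 2 ⊆ g '' (ball 0 1)) {z : ℂ} (hz : ‖z‖ < 1) :
    ‖deriv g z‖ ≤ 192 / (1 - ‖z‖) := by
  set d : ℝ := 1 - ‖z‖ with hd
  have hd0 : 0 < d := by linarith
  have hmem : ∀ ζ ∈ ball (0 : ℂ) 1, z + d * ζ ∈ ball (0 : ℂ) 1 := by
    intro ζ hζ
    rw [mem_ball_zero_iff] at hζ ⊢
    calc ‖z + d * ζ‖ ≤ ‖z‖ + ‖(d : ℂ) * ζ‖ := norm_add_le _ _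
      _ = ‖z‖ + d * ‖ζ‖ := by rw [norm_mul, Complex.norm_real, Real.norm_of_nonneg hd0.le]
      _ < ‖z‖ + d * 1 := by gcongr
      _ = 1 := by rw [hd]; ring
  set h : ℂ → ℂ := fun ζ => g (z + d * ζ) with hh
  have hhd : DifferentiableOn ℂ h (ball 0 1) := by
    apply hg.comp (by fun_prop) hmem
  have hno' : ∀ w, ¬ ball w 2 ⊆ h '' (ball 0 1) := by
    intro w hw
    refine hno w (hw.trans ?_)
    rintro _ ⟨ζ, hζ, rfl⟩
    exact ⟨_, hmem ζ hζ, rfl⟩
  have h1 := deriv_zero_le hhd hno'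
  have h2 : deriv h 0 = d * deriv g z := by
    have hz' : z + d * (0 : ℂ) = z := by simp
    have hgz : HasDerivAt g (deriv g z) (z + d * (0 : ℂ)) := by
      rw [hz']
      exact (hg.differentiableAt (isOpen_ball.mem_nhds (by simpa using hz))).hasDerivAt
    have hin : HasDerivAt (fun ζ : ℂ => z + d * ζ) (d : ℂ) 0 := by
      simpa using ((hasDerivAt_id (0 : ℂ)).const_mul (d : ℂ)).const_add z
    have := (hgz.comp (0 : ℂ) hin).deriv
    rw [mul_comm]
    exact this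
  rw [h2, norm_mul, Complex.norm_real, Real.norm_of_nonneg hd0.le] at h1
  rw [le_div_iff₀ hd0]
  linarith

theorem growth {g : ℂ → ℂ} (hg : DifferentiableOn ℂ g (ball 0 1))
    (hno : ∀ w, ¬ ball w 2 ⊆ g '' (ball 0 1)) {r : ℝ} (hr : r < 1) {z : ℂ} (hz : ‖z‖ ≤ r) :
    ‖g z‖ ≤ ‖g 0‖ + 192 / (1 - r) := by
  have hr0 : 0 ≤ r := (norm_nonneg z).trans hz
  have hsub : closedBall (0 : ℂ) r ⊆ ball 0 1 := closedBall_subset_ball hr
  have h1 : ∀ x ∈ closedBall (0 : ℂ) r, HasDerivWithinAt g (deriv g x) (closedBall (0 : ℂ) r) x :=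
    fun x hx => (hg.differentiableAt (isOpen_ball.mem_nhds (hsub hx))).hasDerivAt.hasDerivWithinAt
  have h2 : ∀ x ∈ closedBall (0 : ℂ) r, ‖deriv g x‖ ≤ 192 / (1 - r) := by
    intro x hx
    have hx1 : ‖x‖ ≤ r := by simpa using hx
    refine (deriv_le hg hno (lt_of_le_of_lt hx1 hr)).trans ?_
    apply div_le_div_of_nonneg_left (by norm_num) (by linarith) (by linarith)
  have h3 := (convex_closedBall (0 : ℂ) r).norm_image_sub_le_of_norm_hasDerivWithin_le h1 h2
    (mem_closedBall_self hr0) (by simpa using hz : z ∈ closedBall (0 : ℂ) r)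
  have h4 : 192 / (1 - r) * ‖z - 0‖ ≤ 192 / (1 - r) := by
    have : (0 : ℝ) ≤ 192 / (1 - r) := by apply div_nonneg <;> linarith
    rw [sub_zero]
    nlinarith
  calc ‖g z‖ = ‖g 0 + (g z - g 0)‖ := by ring_nf
    _ ≤ ‖g 0‖ + ‖g z - g 0‖ := norm_add_le _ _
    _ ≤ _ := by linarith

end Pool.Agent.V11234.HD
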