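import Mathlib
import Pool.Agent.V11234.HD.Bloch

set_option autoImplicit false

namespace Pool.Agent.V11234.HD

open Metric Set Complex Filter Topology

/-- Holomorphic logarithm on the disc. -/
theorem exists_log {F : ℂ → ℂ} (hF : DifferentiableOn ℂ F (ball 0 1))
    (h0 : ∀ z ∈ ball (0 : ℂ) 1, F z ≠ 0) :
    ∃ L : ℂ → ℂ, DifferentiableOn ℂ L (ball 0 1) ∧ ∀ z ∈ ball (0 : ℂ) 1, exp (L z) = F z := by
  have hd : DifferentiableOn ℂ (deriv F) (ball 0 1) := hF.deriv isOpen_ball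
  have hq : DifferentiableOn ℂ (fun z => deriv F z / F z) (ball 0 1) := hd.div hF h0
  have h00 : (0 : ℂ) ∈ ball (0 : ℂ) 1 := mem_ball_self one_pos
  obtain ⟨L, hL0, hL⟩ := (hq.isExactOn_ball).with_val_at 0 (Complex.log (F 0))
  refine ⟨L, fun z hz => (hL z hz).differentiableAt.differentiableWithinAt, ?_⟩
  have hder : ∀ z ∈ ball (0 : ℂ) 1, HasDerivAt (fun z => exp (-L z) * F z) 0 z := by
    intro z hz
    have h1 : HasDerivAt F (deriv F z) z :=
      (hF.differentiableAt (isOpen_ball.mem_nhds hz)).hasDerivAt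
    have h2 := (hL z hz).fun_neg.cexp.fun_mul h1
    have h3 : exp (-L z) * -(deriv F z / F z) * F z + exp (-L z) * deriv F z = 0 := by
      have := h0 z hz
      field_simp
      ring
    rw [h3] at h2
    exact h2
  have hconst : ∀ z ∈ ball (0 : ℂ) 1, exp (-L z) * F z = exp (-L 0) * F 0 := by
    intro z hz
    have := (convex_ball (0 : ℂ) 1).is_const_of_fderivWithin_eq_zero (𝕜 := ℂ)
      (f := fun z => exp (-L z) * F z)
      (fun z hz => (hder z hz).differentiableAt.differentiableWithinAt) ?_ hz h00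
    · exact this
    · intro x hx
      have h4 := (hder x hx).hasFDerivAt.hasFDerivWithinAt (s := ball (0 : ℂ) 1)
      rw [h4.fderivWithin (isOpen_ball.uniqueDiffWithinAt hx)]
      ext
      simp
  intro z hz
  have h5 := hconst z hz
  have h6 : exp (-L 0) * F 0 = 1 := by
    rw [hL0, Complex.exp_neg, Complex.exp_log (h0 0 h00), inv_mul_cancel₀ (h0 0 h00)]
  rw [h6, Complex.exp_neg] at h5
  have := Complex.exp_ne_zero (L z)
  field_simp at h5
  exact h5.symm

/-- Holomorphic arccos on the disc. -/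
theorem exists_arccos {F : ℂ → ℂ} (hF : DifferentiableOn ℂ F (ball 0 1))
    (h1 : ∀ z ∈ ball (0 : ℂ) 1, F z ≠ 1) (h2 : ∀ z ∈ ball (0 : ℂ) 1, F z ≠ -1) :
    ∃ g : ℂ → ℂ, DifferentiableOn ℂ g (ball 0 1) ∧
      ∀ z ∈ ball (0 : ℂ) 1, F z = cos (Real.pi * g z) := by
  obtain ⟨L, hL, hLe⟩ := exists_log (F := fun z => F z ^ 2 - 1) (by fun_prop) (by
    intro z hz h
    have : (F z - 1) * (F z + 1) = 0 := by linear_combination h
    rcases mul_eq_zero.mp this with h | h
    · exact h1 z hz (by linear_combination h)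
    · exact h2 z hz (by linear_combination h))
  set s : ℂ → ℂ := fun z => exp (L z / 2) with hs
  have hs2 : ∀ z ∈ ball (0 : ℂ) 1, s z ^ 2 = F z ^ 2 - 1 := by
    intro z hz
    rw [← hLe z hz, hs]
    simp only
    rw [← Complex.exp_nat_mul]
    congr 1
    push_cast
    ring
  have hsd : DifferentiableOn ℂ s (ball 0 1) := by
    rw [hs]
    fun_prop
  obtain ⟨M, hM, hMe⟩ := exists_log (F := fun z => F z + s z) (hF.add hsd) (by
    intro z hz h
    have h3 := hs2 z hz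
    have h4 : (F z + s z) * (F z - s z) = 1 := by linear_combination -h3
    rw [h, zero_mul] at h4
    exact zero_ne_one h4)
  refine ⟨fun z => M z / (Real.pi * I), ?_, ?_⟩
  · exact hM.div_const _
  · intro z hz
    have h3 := hs2 z hz
    have h4 : (F z + s z) * (F z - s z) = 1 := by linear_combination -h3
    have h5 := hMe z hz
    have hpi : (Real.pi : ℂ) ≠ 0 := by exact_mod_cast Real.pi_ne_zero
    have h6 : (Real.pi : ℂ) * (M z / (Real.pi * I)) * I = M z := by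
      have := I_ne_zero
      field_simp
    have h7 : exp (-(M z)) = F z - s z := by
      rw [Complex.exp_neg, h5]
      exact inv_eq_of_mul_eq_one_right h4
    rw [Complex.cos, h6, show -((Real.pi : ℂ) * (M z / (Real.pi * I))) * I = -M z by
      rw [neg_mul, h6], h5, h7]
    ring

theorem abs_im_le_norm_cos (w : ℂ) : |w.im| ≤ ‖cos w‖ := by
  have h1 : cos w = cos (w.re : ℂ) * cosh (w.im : ℂ) - sin (w.re : ℂ) * sinh (w.im : ℂ) * I := by
    rw [← Complex.cos_add_mul_I, re_add_im]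
  have h2 : cos w = ((Real.cos w.re * Real.cosh w.im : ℝ) : ℂ) +
      ((-(Real.sin w.re * Real.sinh w.im) : ℝ) : ℂ) * I := by
    rw [h1]; push_cast; ring
  have h3 : ‖cos w‖ ^ 2 = (Real.cos w.re * Real.cosh w.im) ^ 2 +
      (Real.sin w.re * Real.sinh w.im) ^ 2 := by
    rw [h2, ← Complex.normSq_eq_norm_sq, Complex.normSq_add_mul_I]
    ring
  have h4 : Real.sinh w.im ^ 2 ≤ ‖cos w‖ ^ 2 := by
    rw [h3]
    have := Real.cosh_sq w.im
    have := Real.sin_sq_add_cos_sq w.re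
    nlinarith [sq_nonneg (Real.cos w.re)]
  have h5 : |Real.sinh w.im| ≤ ‖cos w‖ := by
    exact abs_le_of_sq_le_sq h4 (norm_nonneg _) |> fun h => h
  refine le_trans ?_ h5
  rw [Real.abs_sinh]
  exact Real.self_le_sinh_iff.mpr (abs_nonneg _)

theorem norm_cos_le (w : ℂ) : ‖cos w‖ ≤ Real.exp ‖w‖ := by
  rw [Complex.cos, norm_div]
  have h1 : ‖exp (w * I)‖ ≤ Real.exp ‖w‖ := by
    simpa using Complex.norm_exp_le_exp_norm (w * I)
  have h2 : ‖exp (-w * I)‖ ≤ Real.exp ‖w‖ := by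
    simpa using Complex.norm_exp_le_exp_norm (-w * I)
  have h3 := norm_add_le (exp (w * I)) (exp (-w * I))
  rw [Complex.norm_ofNat]
  linarith

/-- normalised arccos. -/
theorem exists_arccos' {F : ℂ → ℂ} (hF : DifferentiableOn ℂ F (ball 0 1))
    (h1 : ∀ z ∈ ball (0 : ℂ) 1, F z ≠ 1) (h2 : ∀ z ∈ ball (0 : ℂ) 1, F z ≠ -1) :
    ∃ g : ℂ → ℂ, DifferentiableOn ℂ g (ball 0 1) ∧
      (∀ z ∈ ball (0 : ℂ) 1, F z = cos (Real.pi * g z)) ∧ ‖g 0‖ ≤ 1 + ‖F 0‖ := by
  obtain ⟨g, hg, hge⟩ := exists_arccos hF h1 h2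
  set m : ℤ := round ((g 0).re / 2) with hm
  refine ⟨fun z => g z - 2 * m, by fun_prop, ?_, ?_⟩
  · intro z hz
    rw [hge z hz]
    have : (Real.pi : ℂ) * (g z - 2 * m) = Real.pi * g z - m * (2 * Real.pi) := by ring
    rw [this, Complex.cos_sub_int_mul_two_pi]
  · have h00 : (0 : ℂ) ∈ ball (0 : ℂ) 1 := mem_ball_self one_pos
    have hre : |(g 0 - 2 * m).re| ≤ 1 := by
      have h3 := abs_sub_round ((g 0).re / 2)
      have h4 : (g 0 - 2 * (m : ℂ)).re = 2 * ((g 0).re / 2 - m) := by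
        simp
        ring
      rw [h4, abs_mul, abs_two]
      linarith
    have him : |(g 0 - 2 * (m : ℂ)).im| ≤ ‖F 0‖ := by
      have h3 : (g 0 - 2 * (m : ℂ)).im = (g 0).im := by simp
      rw [h3, hge 0 h00]
      refine le_trans ?_ (abs_im_le_norm_cos _)
      have h4 : ((Real.pi : ℂ) * g 0).im = Real.pi * (g 0).im := by simp
      rw [h4, abs_mul, abs_of_pos Real.pi_pos]
      have h5 : 1 ≤ Real.pi := by linarith [Real.pi_gt_three]
      nlinarith [abs_nonneg (g 0).im]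
    calc ‖g 0 - 2 * (m : ℂ)‖ ≤ |(g 0 - 2 * (m : ℂ)).re| + |(g 0 - 2 * (m : ℂ)).im| :=
          Complex.norm_le_abs_re_add_abs_im _
      _ ≤ 1 + ‖F 0‖ := add_le_add hre him

/-- net lemma. -/
theorem exists_net_aux (t0 : ℝ) (h0 : 0 ≤ t0) :
    ∃ t : ℝ, ∃ n : ℤ, |t - t0| ≤ 1 ∧ Real.cosh (Real.pi * t) = n := by
  have hcont : ContinuousOn (fun t : ℝ => Real.cosh (Real.pi * t)) (Icc t0 (t0 + 1)) := by
    fun_prop
  have hiv := intermediate_value_Icc (by linarith : t0 ≤ t0 + 1) hcont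
  set n : ℤ := ⌈Real.cosh (Real.pi * t0)⌉ with hn
  have h1 : Real.cosh (Real.pi * t0) ≤ n := Int.le_ceil _
  have h2 : (n : ℝ) < Real.cosh (Real.pi * t0) + 1 := Int.ceil_lt_add_one _
  have h3 : Real.cosh (Real.pi * t0) + 1 ≤ Real.cosh (Real.pi * (t0 + 1)) := by
    have h4 : Real.pi * (t0 + 1) = Real.pi * t0 + Real.pi := by ring
    rw [h4, Real.cosh_add]
    have h5 : 0 ≤ Real.sinh (Real.pi * t0) := Real.sinh_nonneg_iff.mpr (by positivity)
    have h6 : 0 ≤ Real.sinh Real.pi := Real.sinh_nonneg_iff.mpr Real.pi_pos.le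
    have h7 : 1 ≤ Real.cosh (Real.pi * t0) := Real.one_le_cosh _
    have h8 : 2 ≤ Real.cosh Real.pi := by
      have h9 : Real.pi ≤ Real.sinh Real.pi := Real.self_le_sinh_iff.mpr Real.pi_pos.le
      have h10 := Real.sinh_lt_cosh Real.pi
      linarith [Real.pi_gt_three]
    nlinarith [mul_nonneg h5 h6]
  obtain ⟨t, ht, hte⟩ := hiv (⟨h1, by linarith⟩ : (n : ℝ) ∈ Icc _ _)
  refine ⟨t, n, ?_, hte⟩
  rw [abs_le]
  constructor <;> linarith [ht.1, ht.2]

theorem exists_net (w : ℂ) : ∃ a ∈ ball w 2, ∃ n : ℤ, cos (Real.pi * a) = n := by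
  obtain ⟨t, n, ht, hn⟩ : ∃ t : ℝ, ∃ n : ℤ, |t - w.im| ≤ 1 ∧ Real.cosh (Real.pi * t) = n := by
    rcases le_total 0 w.im with h | h
    · exact exists_net_aux _ h
    · obtain ⟨t, n, ht, hn⟩ := exists_net_aux (-w.im) (by linarith)
      refine ⟨-t, n, ?_, ?_⟩
      · rw [← abs_neg]
        convert ht using 2
        ring
      · rw [← hn, mul_neg, Real.cosh_neg]
  set m : ℤ := round w.re with hm
  have hm1 : |w.re - m| ≤ 1 / 2 := abs_sub_round _
  refine ⟨(m : ℂ) + t * I, ?_, ?_⟩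
  · rw [mem_ball, dist_comm, dist_eq_norm]
    calc ‖w - ((m : ℂ) + t * I)‖ ≤ |(w - ((m : ℂ) + t * I)).re| + |(w - ((m : ℂ) + t * I)).im| :=
          Complex.norm_le_abs_re_add_abs_im _
      _ = |w.re - m| + |w.im - t| := by simp
      _ < 2 := by
        rw [abs_sub_comm w.im]
        linarith
  · have h1 : (Real.pi : ℂ) * ((m : ℂ) + t * I) = ((m : ℝ) * Real.pi : ℝ) + ((Real.pi * t : ℝ) : ℂ) * I := by
      push_cast; ring
    have h2 : cos ((Real.pi : ℂ) * ((m : ℂ) + t * I)) = (Real.cos (m * Real.pi) : ℝ) * (n : ℂ) := by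
      rw [h1, Complex.cos_add_mul_I]
      have h3 : sin (((m : ℝ) * Real.pi : ℝ) : ℂ) = 0 := by
        rw [← Complex.ofReal_sin, Real.sin_int_mul_pi, ofReal_zero]
      rw [h3, zero_mul, zero_mul, sub_zero, ← Complex.ofReal_cos, ← Complex.ofReal_cosh, hn]
      push_cast
      rfl
    rw [h2]
    rw [Real.cos_int_mul_pi m]
    rcases Int.even_or_odd m with h | h
    · exact ⟨n, by rw [h.neg_one_zpow]; simp⟩
    · exact ⟨-n, by rw [h.neg_one_zpow]; simp⟩

/-- The function is holomorphic in the unit disc and omits `0` and `1`. -/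
def Omit (f : ℂ → ℂ) : Prop :=
  DifferentiableOn ℂ f (ball 0 1) ∧ (∀ z ∈ ball (0 : ℂ) 1, f z ≠ 0) ∧
    ∀ z ∈ ball (0 : ℂ) 1, f z ≠ 1

/-- Schottky's theorem. -/
theorem schottky (A r : ℝ) (hr : r < 1) :
    ∃ S : ℝ, ∀ f : ℂ → ℂ, Omit f → ‖f 0‖ ≤ A → ∀ z, ‖z‖ ≤ r → ‖f z‖ ≤ S := by
  set G : ℝ := 1 + (1 + (2 * A + 1)) + 192 / (1 - r) with hG
  refine ⟨(Real.exp (Real.pi * Real.exp (Real.pi * G)) + 1) / 2, ?_⟩
  rintro f ⟨hf, hf0, hf1⟩ hA z hz
  have h00 : (0 : ℂ) ∈ ball (0 : ℂ) 1 := mem_ball_self one_pos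
  have hz1 : z ∈ ball (0 : ℂ) 1 := by
    rw [mem_ball_zero_iff]; exact lt_of_le_of_lt hz hr
  obtain ⟨F, hF, hFe, hFn⟩ := exists_arccos' (F := fun z => 2 * f z - 1) (by fun_prop)
    (by intro z hz h; exact hf1 z hz (by linear_combination h / 2))
    (by intro z hz h; exact hf0 z hz (by linear_combination h / 2))
  have hFint : ∀ z ∈ ball (0 : ℂ) 1, ∀ n : ℤ, F z ≠ n := by
    intro z hz n h
    have h1 := hFe z hz
    rw [h] at h1
    have h2 : cos ((Real.pi : ℂ) * n) = 1 ∨ cos ((Real.pi : ℂ) * n) = -1 := by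
      have h3 : sin ((Real.pi : ℂ) * n) = 0 := by
        rw [mul_comm]; exact Complex.sin_int_mul_pi n
      have h4 := Complex.sin_sq_add_cos_sq ((Real.pi : ℂ) * n)
      rw [h3] at h4
      have h5 : (cos ((Real.pi : ℂ) * n) - 1) * (cos ((Real.pi : ℂ) * n) + 1) = 0 := by
        linear_combination h4
      rcases mul_eq_zero.mp h5 with h | h
      · left; linear_combination h
      · right; linear_combination h
    rcases h2 with h2 | h2
    · rw [h2] at h1
      exact hf1 z hz (by linear_combination h1 / 2)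
    · rw [h2] at h1
      exact hf0 z hz (by linear_combination h1 / 2)
  obtain ⟨g, hg, hge, hgn⟩ := exists_arccos' hF
    (by intro z hz; simpa using hFint z hz 1)
    (by intro z hz; simpa using hFint z hz (-1))
  have hno : ∀ w, ¬ ball w 2 ⊆ g '' (ball 0 1) := by
    intro w hw
    obtain ⟨a, ha, n, hn⟩ := exists_net w
    obtain ⟨x, hx, hxa⟩ := hw ha
    have := hge x hx
    rw [hxa, hn] at this
    exact hFint x hx n this
  have hgz := growth hg hno hr hz
  have hf0n : ‖2 * f 0 - 1‖ ≤ 2 * A + 1 := by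
    calc ‖2 * f 0 - 1‖ ≤ ‖2 * f 0‖ + ‖(1 : ℂ)‖ := norm_sub_le _ _
      _ = 2 * ‖f 0‖ + 1 := by rw [norm_mul, Complex.norm_ofNat, norm_one]
      _ ≤ 2 * A + 1 := by linarith
  have hgG : ‖g z‖ ≤ G := by
    rw [hG]; linarith
  have hFz : ‖F z‖ ≤ Real.exp (Real.pi * G) := by
    rw [hge z hz1]
    refine (norm_cos_le _).trans ?_
    rw [Real.exp_le_exp, norm_mul, Complex.norm_real, Real.norm_of_nonneg Real.pi_pos.le]
    exact mul_le_mul_of_nonneg_left hgG Real.pi_pos.le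
  have hfz : ‖2 * f z - 1‖ ≤ Real.exp (Real.pi * Real.exp (Real.pi * G)) := by
    have := hFe z hz1
    rw [this]
    refine (norm_cos_le _).trans ?_
    rw [Real.exp_le_exp, norm_mul, Complex.norm_real, Real.norm_of_nonneg Real.pi_pos.le]
    exact mul_le_mul_of_nonneg_left hFz Real.pi_pos.le
  have h8 : ‖f z‖ = ‖(2 * f z - 1) + 1‖ / 2 := by
    rw [sub_add_cancel, norm_mul, Complex.norm_ofNat]; ring
  rw [h8]
  have h9 := norm_add_le (2 * f z - 1) 1
  rw [norm_one] at h9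
  linarith

end Pool.Agent.V11234.HD
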