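import Mathlib
import Pool.Agent.V11234.HD.Schottky

set_option autoImplicit false

namespace Pool.Agent.V11234.HD

open Metric Set Complex Filter Topology ComplexConjugate

theorem Omit.inv {f : ℂ → ℂ} (hf : Omit f) : Omit (fun z => (f z)⁻¹) := by
  refine ⟨hf.1.inv hf.2.1, fun z hz => inv_ne_zero (hf.2.1 z hz), fun z hz h => ?_⟩
  exact hf.2.2 z hz (inv_eq_one.mp h)

theorem Omit.inv' {f : ℂ → ℂ} (hf : Omit f) : Omit (fun z => (1 - f z)⁻¹) := by
  have h1 : ∀ z ∈ ball (0 : ℂ) 1, 1 - f z ≠ 0 := fun z hz h =>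
    hf.2.2 z hz (sub_eq_zero.mp h).symm
  refine ⟨DifferentiableOn.inv (hf.1.const_sub _) h1, fun z hz => inv_ne_zero (h1 z hz),
    fun z hz h => ?_⟩
  have := inv_eq_one.mp h
  exact hf.2.1 z hz (by linear_combination -this)

/-- Precomposition with a holomorphic self-map of the disc. -/
theorem Omit.comp {f φ : ℂ → ℂ} (hf : Omit f) (hφ : DifferentiableOn ℂ φ (ball 0 1))
    (hm : MapsTo φ (ball 0 1) (ball 0 1)) : Omit (fun z => f (φ z)) :=
  ⟨hf.1.comp hφ hm, fun _ hz => hf.2.1 _ (hm hz), fun _ hz => hf.2.2 _ (hm hz)⟩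

theorem schottky2 (A δ r : ℝ) (hδ : 0 < δ) (hr : r < 1) :
    ∃ S s : ℝ, 0 < S ∧ 0 < s ∧ ∀ f : ℂ → ℂ, Omit f → ‖f 0‖ ≤ A → δ ≤ ‖f 0‖ → δ ≤ ‖f 0 - 1‖ →
      ∀ z, ‖z‖ ≤ r → ‖f z‖ ≤ S ∧ s ≤ ‖f z‖ ∧ s ≤ ‖f z - 1‖ := by
  obtain ⟨S1, hS1⟩ := schottky A r hr
  obtain ⟨S2, hS2⟩ := schottky δ⁻¹ r hr
  have hT : 0 < max S2 1 := lt_of_lt_of_le one_pos (le_max_right _ _)
  refine ⟨max S1 1, (max S2 1)⁻¹, lt_of_lt_of_le one_pos (le_max_right _ _), inv_pos.mpr hT, ?_⟩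
  intro f hf hA h0 h1 z hz
  have hz1 : z ∈ ball (0 : ℂ) 1 := by
    rw [mem_ball_zero_iff]; exact lt_of_le_of_lt hz hr
  refine ⟨(hS1 f hf hA z hz).trans (le_max_left _ _), ?_, ?_⟩
  · have h2 := hS2 _ hf.inv (by
      rw [norm_inv]
      exact inv_anti₀ hδ h0) z hz
    rw [norm_inv] at h2
    have h3 : ‖f z‖⁻¹ ≤ max S2 1 := h2.trans (le_max_left _ _)
    exact inv_le_of_inv_le₀ (norm_pos_iff.mpr (hf.2.1 z hz1)) h3
  · have h2 := hS2 _ hf.inv' (by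
      rw [norm_inv, norm_sub_rev]
      exact inv_anti₀ hδ h1) z hz
    rw [norm_inv, norm_sub_rev] at h2
    have h3 : ‖f z - 1‖⁻¹ ≤ max S2 1 := h2.trans (le_max_left _ _)
    exact inv_le_of_inv_le₀ (norm_pos_iff.mpr (sub_ne_zero.mpr (hf.2.2 z hz1))) h3

theorem second_order {f : ℂ → ℂ} {r S : ℝ} (hr : 0 < r) (hf : DifferentiableOn ℂ f (ball 0 r))
    (hS : ∀ z ∈ ball (0 : ℂ) r, ‖f z‖ ≤ S) {z : ℂ} (hz : z ∈ ball (0 : ℂ) r) :
    ‖f z - f 0 - deriv f 0 * z‖ ≤ 4 * S * (‖z‖ / r) ^ 2 := by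
  have h00 : (0 : ℂ) ∈ ball (0 : ℂ) r := mem_ball_self hr
  have hS0 : ‖f 0‖ ≤ S := hS 0 h00
  have hm1 : MapsTo f (ball 0 r) (closedBall (f 0) (2 * S)) := by
    intro x hx
    rw [mem_closedBall, dist_eq_norm]
    have := norm_sub_le (f x) (f 0)
    have := hS x hx
    linarith
  have hd := norm_deriv_le_div_of_mapsTo_ball hf hm1 hr
  have hfd : HasDerivAt f (deriv f 0) 0 :=
    (hf.differentiableAt (isOpen_ball.mem_nhds h00)).hasDerivAt
  have hgd : HasDerivAt (fun z => f z - deriv f 0 * z) 0 0 := by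
    have := hfd.fun_sub ((hasDerivAt_id' (0 : ℂ)).const_mul (deriv f 0))
    rwa [mul_one, sub_self] at this
  have hm2 : MapsTo (fun z => f z - deriv f 0 * z) (ball 0 r)
      (closedBall ((fun z => f z - deriv f 0 * z) 0) (4 * S)) := by
    intro x hx
    rw [mem_closedBall, dist_eq_norm]
    simp only [mul_zero, sub_zero]
    have h1 := hm1 hx
    rw [mem_closedBall, dist_eq_norm] at h1
    have hx' : ‖x‖ ≤ r := by rw [mem_ball_zero_iff] at hx; exact hx.le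
    have h2 : ‖deriv f 0 * x‖ ≤ 2 * S := by
      rw [norm_mul]
      have hS1 : 0 ≤ S := (norm_nonneg _).trans hS0
      calc ‖deriv f 0‖ * ‖x‖ ≤ 2 * S / r * r := by gcongr
        _ = 2 * S := by field_simp
    calc ‖f x - deriv f 0 * x - f 0‖ = ‖(f x - f 0) - deriv f 0 * x‖ := by congr 1; ring
      _ ≤ ‖f x - f 0‖ + ‖deriv f 0 * x‖ := norm_sub_le _ _
      _ ≤ 4 * S := by linarith
  have hlo : (fun x => (fun z => f z - deriv f 0 * z) x - (fun z => f z - deriv f 0 * z) 0)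
      =o[𝓝 0] (fun w : ℂ => ‖w - 0‖ ^ 1) := by
    have := hasDerivAt_iff_isLittleO.mp hgd
    simp only [smul_zero, sub_zero, pow_one] at this ⊢
    exact this.norm_right
  have hfin := Complex.dist_le_mul_div_pow_of_mapsTo_ball_of_isLittleO (n := 1)
    (hf.sub ((differentiableOn_id (𝕜 := ℂ)).const_mul (deriv f 0))) hm2 hlo hz
  rw [dist_zero_right, dist_eq_norm] at hfin
  simp only [Pi.sub_apply, mul_zero, sub_zero] at hfin
  calc ‖f z - f 0 - deriv f 0 * z‖ = ‖f z - deriv f 0 * z - f 0‖ := by congr 1; ring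
    _ ≤ _ := hfin

/-- The extremal derivative. -/
noncomputable def Nsup (w : ℂ) : ℝ := sSup {x | ∃ G : ℂ → ℂ, Omit G ∧ G 0 = w ∧ x = ‖deriv G 0‖}

theorem Nsup_bdd (w : ℂ) : BddAbove {x | ∃ G : ℂ → ℂ, Omit G ∧ G 0 = w ∧ x = ‖deriv G 0‖} := by
  obtain ⟨S, hS⟩ := schottky ‖w‖ (1 / 2) (by norm_num)
  refine ⟨S / (1 / 2), ?_⟩
  rintro _ ⟨G, hG, hG0, rfl⟩
  apply norm_deriv_le_of_forall_mem_sphere_norm_le (by norm_num : (0 : ℝ) < 1 / 2)
  · refine (hG.1.mono ?_).diffContOnCl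
    rw [closure_ball _ (by norm_num)]
    exact closedBall_subset_ball (by norm_num)
  · intro z hz
    exact hS G hG (by rw [hG0]) z (by simpa using (mem_sphere_iff_norm.mp hz).le)

theorem le_Nsup {G : ℂ → ℂ} (hG : Omit G) : ‖deriv G 0‖ ≤ Nsup (G 0) :=
  le_csSup (Nsup_bdd _) ⟨G, hG, rfl, rfl⟩

theorem upper {w : ℂ} (hw0 : w ≠ 0) (hw1 : w ≠ 1) (hN : 0 ≤ Nsup w) {ε : ℝ} (hε : 0 < ε) :
    ∃ η > 0, ∀ t : ℝ, 0 < t → t < η → ∀ H : ℂ → ℂ, Omit H → ‖H (-t) - w‖ < η →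
      ‖H 0 - H (-t)‖ ≤ t * (Nsup w + ε) := by
  set N := Nsup w with hNdef
  set δ : ℝ := min ‖w‖ ‖w - 1‖ / 2 with hδ
  have hδ0 : 0 < δ := by
    have h1 : 0 < ‖w‖ := norm_pos_iff.mpr hw0
    have h2 : 0 < ‖w - 1‖ := norm_pos_iff.mpr (sub_ne_zero.mpr hw1)
    have := lt_min h1 h2
    linarith
  set r : ℝ := max (1 / 2) (N / (N + ε / 4)) with hr
  have hr1 : r < 1 := by
    apply max_lt (by norm_num)
    rw [div_lt_one (by linarith)]
    linarith
  have hr2 : 1 / 2 ≤ r := le_max_left _ _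
  have hr0 : 0 < r := by linarith
  have hr3 : N ≤ r * (N + ε / 4) := by
    have : N / (N + ε / 4) ≤ r := le_max_right _ _
    rwa [div_le_iff₀ (by linarith)] at this
  obtain ⟨S, s, hS0, hs0, hSs⟩ := schottky2 (‖w‖ + 1) δ r hδ0 hr1
  set η : ℝ := min (min (min s δ) (1 / 4)) (3 * ε / 4 / (2 * (N + ε / 4) + 64 * S)) with hη
  have hηs : η ≤ s := (min_le_left _ _).trans ((min_le_left _ _).trans (min_le_left _ _))
  have hηδ : η ≤ δ := (min_le_left _ _).trans ((min_le_left _ _).trans (min_le_right _ _))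
  have hη4 : η ≤ 1 / 4 := (min_le_left _ _).trans (min_le_right _ _)
  have hη5 : η ≤ 3 * ε / 4 / (2 * (N + ε / 4) + 64 * S) := min_le_right _ _
  have hη0 : 0 < η := by
    rw [hη]
    refine lt_min (lt_min (lt_min hs0 hδ0) (by norm_num)) (by positivity)
  refine ⟨η, hη0, ?_⟩
  intro t ht0 htη H hH hHw
  set μ : ℂ := H (-t) with hμ
  have ht4 : t < 1 / 4 := lt_of_lt_of_le htη hη4
  set H1 : ℂ → ℂ := fun z => H (-t + (1 - t) * z) with hH1
  have hmaps : MapsTo (fun z : ℂ => -(t : ℂ) + (1 - t) * z) (ball 0 1) (ball 0 1) := by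
    intro z hz
    rw [mem_ball_zero_iff] at hz ⊢
    have h1 : ‖(1 - (t : ℂ))‖ = 1 - t := by
      have : (1 - (t : ℂ)) = ((1 - t : ℝ) : ℂ) := by push_cast; rfl
      rw [this, Complex.norm_real, Real.norm_of_nonneg (by linarith)]
    calc ‖-(t : ℂ) + (1 - t) * z‖ ≤ ‖-(t : ℂ)‖ + ‖(1 - (t : ℂ)) * z‖ := norm_add_le _ _
      _ = t + (1 - t) * ‖z‖ := by
        rw [norm_neg, Complex.norm_real, Real.norm_of_nonneg ht0.le, norm_mul, h1]
      _ < t + (1 - t) * 1 := by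
        have : 0 < 1 - t := by linarith
        gcongr
      _ = 1 := by ring
  have hH1o : Omit H1 := hH.comp (by fun_prop) hmaps
  have hH10 : H1 0 = μ := by simp [hH1, hμ]
  have hμA : ‖H1 0‖ ≤ ‖w‖ + 1 := by
    rw [hH10]
    calc ‖μ‖ = ‖w + (μ - w)‖ := by ring_nf
      _ ≤ ‖w‖ + ‖μ - w‖ := norm_add_le _ _
      _ ≤ ‖w‖ + 1 := by linarith
  have hwδ : 2 * δ ≤ ‖w‖ := by rw [hδ]; have := min_le_left ‖w‖ ‖w - 1‖; linarith
  have hwδ' : 2 * δ ≤ ‖w - 1‖ := by rw [hδ]; have := min_le_right ‖w‖ ‖w - 1‖; linarith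
  have hμδ : δ ≤ ‖H1 0‖ := by
    rw [hH10]
    have : ‖w‖ ≤ ‖μ‖ + ‖μ - w‖ := by
      calc ‖w‖ = ‖μ - (μ - w)‖ := by ring_nf
        _ ≤ _ := norm_sub_le _ _
    linarith
  have hμδ' : δ ≤ ‖H1 0 - 1‖ := by
    rw [hH10]
    have : ‖w - 1‖ ≤ ‖μ - 1‖ + ‖μ - w‖ := by
      calc ‖w - 1‖ = ‖(μ - 1) - (μ - w)‖ := by ring_nf
        _ ≤ _ := norm_sub_le _ _
    linarith
  have hb := hSs H1 hH1o hμA hμδ hμδ'
  set H2 : ℂ → ℂ := fun z => H1 (r * z) + (w - μ) with hH2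
  have hmr : ∀ z ∈ ball (0 : ℂ) 1, ‖(r : ℂ) * z‖ ≤ r := by
    intro z hz
    rw [mem_ball_zero_iff] at hz
    rw [norm_mul, Complex.norm_real, Real.norm_of_nonneg hr0.le]
    nlinarith
  have hmr' : MapsTo (fun z : ℂ => (r : ℂ) * z) (ball 0 1) (ball 0 1) := by
    intro z hz
    rw [mem_ball_zero_iff]
    exact lt_of_le_of_lt (hmr z hz) hr1
  have hH2o : Omit H2 := by
    have h1 := hH1o.comp (φ := fun z => (r : ℂ) * z) (by fun_prop) hmr'
    refine ⟨h1.1.add_const _, ?_, ?_⟩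
    · intro z hz h
      have h2 := (hb _ (hmr z hz)).2.1
      have h3 : H1 (r * z) = μ - w := by
        simp only [hH2] at h
        linear_combination h
      rw [h3] at h2
      linarith
    · intro z hz h
      have h2 := (hb _ (hmr z hz)).2.2
      have h3 : H1 (r * z) - 1 = μ - w := by
        simp only [hH2] at h
        linear_combination h
      rw [h3] at h2
      linarith
  have h00 : (0 : ℂ) ∈ ball (0 : ℂ) 1 := mem_ball_self one_pos
  have hH20 : H2 0 = w := by simp [hH2, hH10]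
  have hH2N : ‖deriv H2 0‖ ≤ N := by
    have := le_Nsup hH2o
    rwa [hH20] at this
  have hder : deriv H2 0 = deriv H1 0 * r := by
    have h1 : HasDerivAt H1 (deriv H1 0) ((r : ℂ) * 0) := by
      rw [mul_zero]
      exact (hH1o.1.differentiableAt (isOpen_ball.mem_nhds h00)).hasDerivAt
    have h2 : HasDerivAt (fun z : ℂ => (r : ℂ) * z) (r : ℂ) 0 := by
      simpa using (hasDerivAt_id (0 : ℂ)).const_mul (r : ℂ)
    have h3 := (h1.comp (0 : ℂ) h2).add_const (w - μ)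
    exact h3.deriv
  have hH1N : ‖deriv H1 0‖ ≤ N + ε / 4 := by
    rw [hder, norm_mul, Complex.norm_real, Real.norm_of_nonneg hr0.le] at hH2N
    have : r * ‖deriv H1 0‖ ≤ r * (N + ε / 4) := by linarith
    exact le_of_mul_le_mul_left this hr0
  set x : ℝ := t / (1 - t) with hx
  have h1t : 0 < 1 - t := by linarith
  have hx0 : 0 < x := by positivity
  have hx2 : x ≤ t * (1 + 2 * t) := by
    rw [hx, div_le_iff₀ h1t]
    nlinarith [mul_pos ht0 ht0]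
  have hx3 : x ≤ 2 * t := by nlinarith
  have hxr : ((x : ℂ)) ∈ ball (0 : ℂ) r := by
    rw [mem_ball_zero_iff, Complex.norm_real, Real.norm_of_nonneg hx0.le]
    have : x < 1 / 2 := by
      rw [hx, div_lt_iff₀ h1t]
      linarith
    linarith
  have hH1x : H1 x = H 0 := by
    simp only [hH1]
    congr 1
    rw [hx]
    push_cast
    have : (1 - (t : ℂ)) ≠ 0 := by
      have h1 : (1 - (t : ℂ)) = ((1 - t : ℝ) : ℂ) := by push_cast; rfl
      rw [h1]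
      exact_mod_cast h1t.ne'
    field_simp
    ring
  have hso := second_order hr0 (hH1o.1.mono (ball_subset_ball hr1.le))
    (fun z hz => (hb z (by rw [mem_ball_zero_iff] at hz; exact hz.le)).1) hxr
  rw [hH1x, hH10, Complex.norm_real, Real.norm_of_nonneg hx0.le] at hso
  have hso2 : 4 * S * (x / r) ^ 2 ≤ 64 * S * t ^ 2 := by
    have h1 : x / r ≤ 4 * t := by
      rw [div_le_iff₀ hr0]
      nlinarith
    have h2 : 0 ≤ x / r := by positivity
    calc 4 * S * (x / r) ^ 2 ≤ 4 * S * (4 * t) ^ 2 := by gcongr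
      _ = 64 * S * t ^ 2 := by ring
  have hmain : ‖H 0 - μ‖ ≤ (N + ε / 4) * x + 64 * S * t ^ 2 := by
    calc ‖H 0 - μ‖ = ‖(H 0 - μ - deriv H1 0 * x) + deriv H1 0 * x‖ := by ring_nf
      _ ≤ ‖H 0 - μ - deriv H1 0 * x‖ + ‖deriv H1 0 * x‖ := norm_add_le _ _
      _ ≤ 64 * S * t ^ 2 + ‖deriv H1 0‖ * x := by
        rw [norm_mul, Complex.norm_real, Real.norm_of_nonneg hx0.le]
        linarith
      _ ≤ 64 * S * t ^ 2 + (N + ε / 4) * x := by gcongr
      _ = _ := by ring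
  refine hmain.trans ?_
  have hNε : 0 < N + ε / 4 := by linarith
  have h5 : t * (2 * (N + ε / 4) + 64 * S) ≤ 3 * ε / 4 := by
    have h6 : t ≤ 3 * ε / 4 / (2 * (N + ε / 4) + 64 * S) := htη.le.trans hη5
    rwa [le_div_iff₀ (by positivity)] at h6
  calc (N + ε / 4) * x + 64 * S * t ^ 2 ≤ (N + ε / 4) * (t * (1 + 2 * t)) + 64 * S * t ^ 2 := by
        gcongr
    _ = t * ((N + ε / 4) + t * (2 * (N + ε / 4) + 64 * S)) := by ring
    _ ≤ t * ((N + ε / 4) + 3 * ε / 4) := by gcongr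
    _ = t * (N + ε) := by ring

end Pool.Agent.V11234.HD
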