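import Mathlib
import Pool.Agent.V11234.HD.Main

set_option autoImplicit false

namespace Pool.Agent.V11234.HD

open Metric Set Complex Filter Topology ComplexConjugate

theorem main_aux {F : ℂ → ℂ} (hF : Omit F) (hd : deriv F 0 ≠ 0) :
    ∀ᶠ t : ℝ in 𝓝 0, 0 < t → ∃ G : ℂ → ℂ, Omit G ∧ G t = F t ∧
      ∀ H : ℂ → ℂ, Omit H → H (-t) = F (-t) → H 0 ≠ G 0 := by
  have h00 : (0 : ℂ) ∈ ball (0 : ℂ) 1 := mem_ball_self one_pos
  set w := F 0 with hw
  have hw0 : w ≠ 0 := hF.2.1 0 h00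
  have hw1 : w ≠ 1 := hF.2.2 0 h00
  set u := deriv F 0 with hu
  set q : ℝ := ‖u‖ with hq
  have hq0 : 0 < q := norm_pos_iff.mpr hd
  set N := Nsup w with hN
  have hqN : q ≤ N := le_Nsup hF
  have hN0 : 0 ≤ N := by linarith
  set ε : ℝ := q / 4 with hε
  have hε0 : 0 < ε := by positivity
  obtain ⟨η, hη0, hη⟩ := upper hw0 hw1 hN0 hε0
  -- near extremal function
  obtain ⟨_, ⟨G0, hG0, hG0w, rfl⟩, hG0N⟩ := exists_lt_of_lt_csSup
    (⟨_, F, hF, rfl, rfl⟩ : Set.Nonempty {x | ∃ G : ℂ → ℂ, Omit G ∧ G 0 = w ∧ x = ‖deriv G 0‖})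
    (by rw [hN, Nsup] ; rw [Nsup] at hN; linarith : N - ε < sSup {x | ∃ G : ℂ → ℂ, Omit G ∧ G 0 = w ∧ x = ‖deriv G 0‖})
  set v := deriv G0 0 with hv
  -- radius
  obtain ⟨r, hr0, hr1, hrv⟩ : ∃ r : ℝ, 0 < r ∧ r < 1 ∧ N - 2 * ε < r * ‖v‖ := by
    refine ⟨1 - min (1 / 2) (ε / (‖v‖ + 1)), ?_, ?_, ?_⟩
    · have := min_le_left (1 / 2 : ℝ) (ε / (‖v‖ + 1))
      linarith
    · have : 0 < min (1 / 2 : ℝ) (ε / (‖v‖ + 1)) := lt_min (by norm_num) (by positivity)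
      linarith
    · have h1 := min_le_right (1 / 2 : ℝ) (ε / (‖v‖ + 1))
      have h2 : min (1 / 2 : ℝ) (ε / (‖v‖ + 1)) * ‖v‖ ≤ ε := by
        calc min (1 / 2 : ℝ) (ε / (‖v‖ + 1)) * ‖v‖ ≤ (ε / (‖v‖ + 1)) * ‖v‖ := by gcongr
          _ ≤ (ε / (‖v‖ + 1)) * (‖v‖ + 1) := by gcongr; linarith
          _ = ε := by
            have : 0 < ‖v‖ + 1 := by positivity
            field_simp
      linarith
  -- rotation
  obtain ⟨κ, hκ1, hκ⟩ : ∃ κ : ℂ, ‖κ‖ = 1 ∧ κ * v = -((‖v‖ / q : ℝ) : ℂ) * u := by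
    by_cases hv0 : v = 0
    · refine ⟨1, by simp, ?_⟩
      rw [hv0]; simp
    · refine ⟨-((‖v‖ / q : ℝ) : ℂ) * u / v, ?_, ?_⟩
      · rw [norm_div, norm_mul, norm_neg, Complex.norm_real, Real.norm_of_nonneg (by positivity),
          ← hq]
        have : ‖v‖ ≠ 0 := norm_ne_zero_iff.mpr hv0
        field_simp
      · field_simp
  set G1 : ℂ → ℂ := fun z => G0 (r * κ * z) with hG1
  have hmr : ∀ z ∈ ball (0 : ℂ) 1, ‖(r : ℂ) * κ * z‖ ≤ r := by
    intro z hz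
    rw [mem_ball_zero_iff] at hz
    rw [norm_mul, norm_mul, Complex.norm_real, Real.norm_of_nonneg hr0.le, hκ1]
    nlinarith
  have hmr' : MapsTo (fun z : ℂ => (r : ℂ) * κ * z) (ball 0 1) (ball 0 1) := by
    intro z hz
    rw [mem_ball_zero_iff]
    exact lt_of_le_of_lt (hmr z hz) hr1
  have hG1o : Omit G1 := hG0.comp (by fun_prop) hmr'
  obtain ⟨S, s, hS0, hs0, hSs⟩ := schottky2 ‖w‖ (min ‖w‖ ‖w - 1‖) r
    (lt_min (norm_pos_iff.mpr hw0) (norm_pos_iff.mpr (sub_ne_zero.mpr hw1))) hr1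
  have hb := hSs G0 hG0 (by rw [hG0w]) (by rw [hG0w]; exact min_le_left _ _)
    (by rw [hG0w]; exact min_le_right _ _)
  have hG1d : HasDerivAt G1 (r * (κ * v)) 0 := by
    have h1 : HasDerivAt G0 v ((r : ℂ) * κ * 0) := by
      rw [mul_zero]
      exact (hG0.1.differentiableAt (isOpen_ball.mem_nhds h00)).hasDerivAt
    have h2 : HasDerivAt (fun z : ℂ => (r : ℂ) * κ * z) ((r : ℂ) * κ) 0 := by
      simpa using (hasDerivAt_id (0 : ℂ)).const_mul ((r : ℂ) * κ)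
    have h3 := h1.comp (0 : ℂ) h2
    have h4 : v * ((r : ℂ) * κ) = r * (κ * v) := by ring
    rw [h4] at h3
    exact h3
  have hG10 : G1 0 = w := by simp [hG1, hG0w]
  have hFd : HasDerivAt F u 0 := (hF.1.differentiableAt (isOpen_ball.mem_nhds h00)).hasDerivAt
  have hFn : HasDerivAt (fun z => F (-z)) (-u) 0 := by
    have h1 : HasDerivAt F u (-0) := by rw [neg_zero]; exact hFd
    have h2 := h1.comp (0 : ℂ) (hasDerivAt_neg (0 : ℂ))
    rw [mul_neg, mul_one] at h2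
    exact h2
  set Φ : ℂ → ℂ := fun z => F z - F (-z) - G1 z + w with hΦ
  have hΦd : HasDerivAt Φ (u - (-u) - r * (κ * v)) 0 :=
    ((hFd.fun_sub hFn).fun_sub hG1d).add_const w
  have hΦn : ‖u - (-u) - r * (κ * v)‖ = 2 * q + r * ‖v‖ := by
    have h1 : u - (-u) - r * (κ * v) = ((2 + r * (‖v‖ / q) : ℝ) : ℂ) * u := by
      rw [hκ]; push_cast; ring
    rw [h1, norm_mul, Complex.norm_real, Real.norm_of_nonneg (by positivity), ← hq]
    field_simp
  have hΦ0 : Φ 0 = 0 := by simp [hΦ, hG10, ← hw]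
  have ev1 : ∀ᶠ z in 𝓝 (0 : ℂ), ‖Φ z - z * (u - (-u) - r * (κ * v))‖ ≤ ε * ‖z‖ := by
    have := (hasDerivAt_iff_isLittleO.mp hΦd).def hε0
    simpa [hΦ0] using this
  have ev2 : ∀ᶠ z in 𝓝 (0 : ℂ), ‖F z - G1 z‖ < s := by
    have hc : ContinuousAt (fun z => ‖F z - G1 z‖) 0 :=
      (hFd.continuousAt.sub hG1d.continuousAt).norm
    apply hc.eventually_lt continuousAt_const
    simp [hG10, ← hw, hs0]
  have ev3 : ∀ᶠ z in 𝓝 (0 : ℂ), ‖F (-z) - w‖ < η := by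
    have hc : ContinuousAt (fun z => ‖F (-z) - w‖) 0 :=
      (hFn.continuousAt.sub continuousAt_const).norm
    apply hc.eventually_lt continuousAt_const
    simp [← hw, hη0]
  have hcast : Tendsto (fun t : ℝ => (t : ℂ)) (𝓝 0) (𝓝 0) := by
    have := Complex.continuous_ofReal.tendsto 0
    simpa using this
  have ev4 : ∀ᶠ t : ℝ in 𝓝 0, t < η := eventually_lt_nhds hη0
  filter_upwards [hcast.eventually ev1, hcast.eventually ev2, hcast.eventually ev3, ev4]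
    with t h1 h2 h3 h4 ht0
  refine ⟨fun z => G1 z + (F t - G1 t), ?_, by ring, ?_⟩
  · refine ⟨hG1o.1.add_const _, ?_, ?_⟩
    · intro z hz h
      have h5 := (hb _ (hmr z hz)).2.1
      have h6 : G0 (r * κ * z) = -(F t - G1 t) := by
        simp only [hG1] at h ⊢
        linear_combination h
      rw [h6, norm_neg] at h5
      linarith
    · intro z hz h
      have h5 := (hb _ (hmr z hz)).2.2
      have h6 : G0 (r * κ * z) - 1 = -(F t - G1 t) := by
        simp only [hG1] at h ⊢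
        linear_combination h
      rw [h6, norm_neg] at h5
      linarith
  · intro H hH hHt hH0
    have h5 := hη t ht0 h4 H hH (by rw [hHt]; exact h3)
    have h6 : H 0 - H (-t) = Φ t := by
      rw [hH0, hHt]
      simp only [hΦ, hG10]
      ring
    rw [h6] at h5
    have h7 : ‖(t : ℂ) * (u - (-u) - r * (κ * v))‖ ≤
        ‖Φ t‖ + ‖Φ t - t * (u - (-u) - r * (κ * v))‖ := by
      calc ‖(t : ℂ) * (u - (-u) - r * (κ * v))‖
          = ‖Φ t - (Φ t - t * (u - (-u) - r * (κ * v)))‖ := by congr 1; ring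
        _ ≤ _ := norm_sub_le _ _
    rw [norm_mul, hΦn] at h7
    rw [Complex.norm_real, Real.norm_of_nonneg ht0.le] at h1 h7
    have h8 : t * (2 * q + r * ‖v‖) ≤ t * (N + ε + ε) := by
      calc t * (2 * q + r * ‖v‖) ≤ _ := h7
        _ ≤ t * (N + ε) + ε * t := add_le_add h5 h1
        _ = t * (N + ε + ε) := by ring
    have h9 := le_of_mul_le_mul_left h8 ht0
    rw [hε] at h9 hrv
    linarith

theorem main_two {F : ℂ → ℂ} (hF : Omit F) (hd : deriv F 0 ≠ 0) :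
    ∃ t : ℝ, 0 < t ∧ t < 1 ∧
      (∃ G : ℂ → ℂ, Omit G ∧ G t = F t ∧
        ∀ H : ℂ → ℂ, Omit H → H (-t) = F (-t) → H 0 ≠ G 0) ∧
      (∃ G : ℂ → ℂ, Omit G ∧ G (-t) = F (-t) ∧
        ∀ H : ℂ → ℂ, Omit H → H t = F t → H 0 ≠ G 0) := by
  have hnm : MapsTo (fun z : ℂ => -z) (ball 0 1) (ball 0 1) := by
    intro z hz
    simpa using hz
  have hF' : Omit (fun z => F (-z)) := hF.comp (by fun_prop) hnm
  have hd' : deriv (fun z => F (-z)) 0 ≠ 0 := by
    rw [deriv_comp_neg]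
    simpa using hd
  have h1 := main_aux hF hd
  have h2 := main_aux hF' hd'
  have h3 : ∀ᶠ t : ℝ in 𝓝 0, t < 1 := eventually_lt_nhds one_pos
  have h4 := (h1.and (h2.and h3)).filter_mono (nhdsWithin_le_nhds (s := Ioi (0 : ℝ)))
  obtain ⟨t, ⟨ha, hb, hc⟩, ht⟩ := (h4.and self_mem_nhdsWithin).exists
  have ht0 : 0 < t := ht
  refine ⟨t, ht0, hc, ha ht0, ?_⟩
  obtain ⟨G, hG, hGt, hGH⟩ := hb ht0
  refine ⟨fun z => G (-z), hG.comp (by fun_prop) hnm, ?_, ?_⟩
  · simpa using hGt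
  · intro H hH hHt hH0
    refine hGH (fun z => H (-z)) (hH.comp (by fun_prop) hnm) ?_ ?_
    · simpa using hHt
    · simpa using hH0

/-- Disc automorphism. -/
noncomputable def mob (c z : ℂ) : ℂ := (z + c) / (1 + conj c * z)

theorem mob_den {c z : ℂ} (hc : ‖c‖ < 1) (hz : ‖z‖ < 1) : 1 + conj c * z ≠ 0 := by
  intro h
  have h1 : conj c * z = -1 := by linear_combination h
  have h2 : ‖conj c * z‖ = 1 := by rw [h1]; simp
  rw [norm_mul, Complex.norm_conj] at h2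
  have := norm_nonneg c
  have := norm_nonneg z
  nlinarith

theorem mob_norm {c z : ℂ} (hc : ‖c‖ < 1) (hz : ‖z‖ < 1) : ‖mob c z‖ < 1 := by
  rw [mob, norm_div, div_lt_one (norm_pos_iff.mpr (mob_den hc hz))]
  have h1 : ‖z + c‖ ^ 2 < ‖1 + conj c * z‖ ^ 2 := by
    have h2 : ‖1 + conj c * z‖ ^ 2 - ‖z + c‖ ^ 2 = (1 - ‖c‖ ^ 2) * (1 - ‖z‖ ^ 2) := by
      rw [← Complex.normSq_eq_norm_sq, ← Complex.normSq_eq_norm_sq, ← Complex.normSq_eq_norm_sq,
        ← Complex.normSq_eq_norm_sq]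
      simp only [Complex.normSq_apply, Complex.add_re, Complex.add_im, Complex.mul_re,
        Complex.mul_im, Complex.one_re, Complex.one_im, Complex.conj_re, Complex.conj_im]
      ring
    have h3 : 0 < (1 - ‖c‖ ^ 2) * (1 - ‖z‖ ^ 2) := by
      apply mul_pos
      · nlinarith [norm_nonneg c]
      · nlinarith [norm_nonneg z]
    linarith
  exact lt_of_pow_lt_pow_left₀ 2 (norm_nonneg _) h1

theorem mob_maps {c : ℂ} (hc : ‖c‖ < 1) : MapsTo (mob c) (ball 0 1) (ball 0 1) := by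
  intro z hz
  rw [mem_ball_zero_iff] at hz ⊢
  exact mob_norm hc hz

theorem mob_diff {c : ℂ} (hc : ‖c‖ < 1) : DifferentiableOn ℂ (mob c) (ball 0 1) := by
  unfold mob
  refine DifferentiableOn.div (by fun_prop) (by fun_prop) ?_
  intro z hz
  exact mob_den hc (by simpa using hz)

theorem mob_inv {c z : ℂ} (hc : ‖c‖ < 1) (hz : ‖z‖ < 1) : mob c (mob (-c) z) = z := by
  have hc' : ‖-c‖ < 1 := by rwa [norm_neg]
  have h1 := mob_den hc' hz
  have h2 := mob_den hc (mob_norm hc' hz)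
  have hm : mob (-c) z * (1 + conj (-c) * z) = z + -c := by
    rw [mob, div_mul_cancel₀ _ h1]
  rw [mob, div_eq_iff h2]
  rw [map_neg] at h1 hm
  apply mul_right_cancel₀ h1
  linear_combination (1 - z * conj c) * hm

theorem mob_zero (c : ℂ) : mob c 0 = c := by simp [mob]

theorem mob_neg_self (c : ℂ) : mob (-c) c = 0 := by simp [mob]

theorem main_pts {f : ℂ → ℂ} (hf : Omit f) (hnc : ∃ c ∈ ball (0 : ℂ) 1, deriv f c ≠ 0) :
    ∃ a ∈ ball (0 : ℂ) 1, ∃ b ∈ ball (0 : ℂ) 1, ∃ c ∈ ball (0 : ℂ) 1,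
      (∃ G : ℂ → ℂ, Omit G ∧ G a = f a ∧ ∀ H : ℂ → ℂ, Omit H → H b = f b → H c ≠ G c) ∧
      (∃ G : ℂ → ℂ, Omit G ∧ G b = f b ∧ ∀ H : ℂ → ℂ, Omit H → H a = f a → H c ≠ G c) := by
  obtain ⟨c, hc, hdc⟩ := hnc
  have hc1 : ‖c‖ < 1 := by simpa using hc
  have hc1' : ‖-c‖ < 1 := by rwa [norm_neg]
  have hF : Omit (fun z => f (mob c z)) := hf.comp (mob_diff hc1) (mob_maps hc1)
  have h00 : (0 : ℂ) ∈ ball (0 : ℂ) 1 := mem_ball_self one_pos
  have hd : deriv (fun z => f (mob c z)) 0 ≠ 0 := by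
    intro h
    apply hdc
    have h1 : HasDerivAt (fun z => f (mob c z)) 0 (mob (-c) c) := by
      have h5 := (hF.1.differentiableAt (isOpen_ball.mem_nhds h00)).hasDerivAt
      rw [h] at h5
      rwa [mob_neg_self]
    have h2 : HasDerivAt (mob (-c)) (deriv (mob (-c)) c) c :=
      ((mob_diff hc1').differentiableAt (isOpen_ball.mem_nhds hc)).hasDerivAt
    have h3 := h1.comp c h2
    rw [zero_mul] at h3
    have h4 : f =ᶠ[𝓝 c] ((fun z => f (mob c z)) ∘ mob (-c)) := by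
      filter_upwards [isOpen_ball.mem_nhds hc] with z hz
      simp only [Function.comp]
      rw [mob_inv hc1 (by simpa using hz)]
    exact (h3.congr_of_eventuallyEq h4).deriv
  obtain ⟨t, ht0, ht1, ⟨G, hG, hGt, hGH⟩, ⟨G', hG', hGt', hGH'⟩⟩ := main_two hF hd
  have htb : (t : ℂ) ∈ ball (0 : ℂ) 1 := by
    rw [mem_ball_zero_iff, Complex.norm_real, Real.norm_of_nonneg ht0.le]; exact ht1
  have htb' : -(t : ℂ) ∈ ball (0 : ℂ) 1 := by
    rw [mem_ball_zero_iff, norm_neg, Complex.norm_real, Real.norm_of_nonneg ht0.le]; exact ht1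
  have inv' : ∀ z ∈ ball (0 : ℂ) 1, mob (-c) (mob c z) = z := by
    intro z hz
    have := mob_inv (c := -c) (z := z) hc1' (by simpa using hz)
    rwa [neg_neg] at this
  refine ⟨mob c t, mob_maps hc1 htb, mob c (-t), mob_maps hc1 htb', c, hc, ?_, ?_⟩
  · refine ⟨fun z => G (mob (-c) z), hG.comp (mob_diff hc1') (mob_maps hc1'), ?_, ?_⟩
    · simp only
      rw [inv' _ htb, hGt]
    · intro H hH hHb hHc
      refine hGH (fun z => H (mob c z)) (hH.comp (mob_diff hc1) (mob_maps hc1)) hHb ?_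
      simp only at hHc ⊢
      rw [mob_zero, hHc, mob_neg_self]
  · refine ⟨fun z => G' (mob (-c) z), hG'.comp (mob_diff hc1') (mob_maps hc1'), ?_, ?_⟩
    · simp only
      rw [inv' _ htb', hGt']
    · intro H hH hHb hHc
      refine hGH' (fun z => H (mob c z)) (hH.comp (mob_diff hc1) (mob_maps hc1)) hHb ?_
      simp only at hHc ⊢
      rw [mob_zero, hHc, mob_neg_self]

theorem const_aux {w a b c : ℂ} (ha : ‖a‖ < 1) (hc : ‖c‖ < 1)
    (hab : ‖mob (-c) a‖ ≤ ‖mob (-c) b‖) (g : ℂ → ℂ) (hg : Omit g) (hga : g a = w) :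
    ∃ h : ℂ → ℂ, Omit h ∧ h b = w ∧ h c = g c := by
  have hc' : ‖-c‖ < 1 := by rwa [norm_neg]
  set l : ℂ := mob (-c) a / mob (-c) b with hl
  have hl1 : ‖l‖ ≤ 1 := by
    rw [hl, norm_div]
    exact div_le_one_of_le₀ hab (norm_nonneg _)
  have hlb : l * mob (-c) b = mob (-c) a := by
    by_cases h : mob (-c) b = 0
    · rw [h, norm_zero] at hab
      rw [h, mul_zero]
      exact (norm_le_zero_iff.mp hab).symm
    · rw [hl]; field_simp
  have hm1 : MapsTo (fun z : ℂ => l * z) (ball 0 1) (ball 0 1) := by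
    intro z hz
    rw [mem_ball_zero_iff] at hz ⊢
    rw [norm_mul]
    nlinarith [norm_nonneg z, norm_nonneg l]
  refine ⟨fun z => g (mob c (l * mob (-c) z)), ?_, ?_, ?_⟩
  · exact ((hg.comp (mob_diff hc) (mob_maps hc)).comp (φ := fun z => l * z) (by fun_prop)
      hm1).comp (mob_diff hc') (mob_maps hc')
  · simp only
    rw [hlb, mob_inv hc ha, hga]
  · simp only
    rw [mob_neg_self, mul_zero, mob_zero]

theorem const_pts {w a b c : ℂ} (ha : ‖a‖ < 1) (hb : ‖b‖ < 1) (hc : ‖c‖ < 1) :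
    (∀ g : ℂ → ℂ, Omit g → g a = w → ∃ h : ℂ → ℂ, Omit h ∧ h b = w ∧ h c = g c) ∨
    (∀ g : ℂ → ℂ, Omit g → g b = w → ∃ h : ℂ → ℂ, Omit h ∧ h a = w ∧ h c = g c) := by
  rcases le_total ‖mob (-c) a‖ ‖mob (-c) b‖ with h | h
  · left
    exact fun g hg hga => const_aux ha hc h g hg hga
  · right
    exact fun g hg hgb => const_aux hb hc h g hg hgb

end Pool.Agent.V11234.HD
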