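import Mathlib
import Pool.Agent.V11234.HD.Main2

set_option autoImplicit false

namespace Pool.Agent.V11234.HD

open Metric Set Complex Filter Topology ComplexConjugate

/-- Harnack's inequality in multiplicative form. -/
theorem harnack {k : ℂ → ℂ} (hk : DifferentiableOn ℂ k (ball 0 1))
    (hk0 : ∀ z ∈ ball (0 : ℂ) 1, k z ≠ 0) (hk1 : ∀ z ∈ ball (0 : ℂ) 1, ‖k z‖ < 1) {q : ℝ}
    (hq : q < 1) {N : ℕ} (hN : (1 + q) / (1 - q) ≤ N) {w : ℂ} (hw : ‖w‖ ≤ q) :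
    ‖k 0‖ ^ N ≤ ‖k w‖ := by
  have h00 : (0 : ℂ) ∈ ball (0 : ℂ) 1 := mem_ball_self one_pos
  have hw1 : w ∈ ball (0 : ℂ) 1 := by rw [mem_ball_zero_iff]; exact lt_of_le_of_lt hw hq
  obtain ⟨L, hL, hLe⟩ := exists_log hk hk0
  set L1 : ℂ → ℂ := fun z => L z - (L 0).im * I with hL1
  have hre : ∀ z, (L1 z).re = (L z).re := by
    intro z
    simp [hL1]
  have hnorm : ∀ z ∈ ball (0 : ℂ) 1, ‖k z‖ = Real.exp (L1 z).re := by
    intro z hz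
    rw [hre, ← hLe z hz, Complex.norm_exp]
  have hneg : ∀ z ∈ ball (0 : ℂ) 1, (L1 z).re ≤ 0 := by
    intro z hz
    have := hk1 z hz
    rw [hnorm z hz] at this
    exact (Real.exp_lt_one_iff.mp this).le
  have hL10 : L1 0 = ((L1 0).re : ℂ) := by
    apply Complex.ext
    · simp
    · simp [hL1]
  have hn0 : ‖L1 0‖ = -(L1 0).re := by
    rw [hL10, Complex.norm_real, Real.norm_eq_abs, Complex.ofReal_re]
    exact abs_of_nonpos (hneg 0 h00)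
  have hwq : 0 < 1 - ‖w‖ := by linarith
  have hBC : ‖L1 w‖ ≤ ‖L1 0‖ * (1 + ‖w‖) / (1 - ‖w‖) := by
    apply le_of_forall_pos_le_add
    intro ε hε
    have hM : 0 < ε * (1 - ‖w‖) / 2 := by positivity
    have h1 := Complex.borelCaratheodory hM (f := L1) (hL.sub_const _)
      (fun z hz => (hneg z hz).trans hM.le) one_pos hw1
    have h2 : 2 * (ε * (1 - ‖w‖) / 2) * ‖w‖ / (1 - ‖w‖) ≤ ε := by
      have : 2 * (ε * (1 - ‖w‖) / 2) * ‖w‖ / (1 - ‖w‖) = ε * ‖w‖ := by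
        field_simp
      rw [this]
      nlinarith [norm_nonneg w]
    linarith
  have hfrac : (1 + ‖w‖) / (1 - ‖w‖) ≤ N := by
    refine le_trans ?_ hN
    rw [div_le_div_iff₀ hwq (by linarith)]
    nlinarith [norm_nonneg w]
  have h3 : ‖L1 w‖ ≤ N * (-(L1 0).re) := by
    calc ‖L1 w‖ ≤ ‖L1 0‖ * (1 + ‖w‖) / (1 - ‖w‖) := hBC
      _ = (1 + ‖w‖) / (1 - ‖w‖) * ‖L1 0‖ := by ring
      _ ≤ N * ‖L1 0‖ := by gcongr
      _ = _ := by rw [hn0]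
  rw [hnorm 0 h00, hnorm w hw1, ← Real.exp_nat_mul, Real.exp_le_exp]
  have h4 : -‖L1 w‖ ≤ (L1 w).re := by
    have := Complex.abs_re_le_norm (L1 w)
    linarith [neg_abs_le (L1 w).re]
  linarith

theorem selfmap {ψ : ℂ → ℂ} (hψ : DifferentiableOn ℂ ψ (ball 0 1))
    (hm : MapsTo ψ (ball 0 1) (ball 0 1)) {z : ℂ} (hz : ‖z‖ < 1) :
    (1 - ‖ψ 0‖ ^ 2) / 8 * (1 - ‖z‖) ≤ 1 - ‖ψ z‖ := by
  have h00 : (0 : ℂ) ∈ ball (0 : ℂ) 1 := mem_ball_self one_pos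
  have hzb : z ∈ ball (0 : ℂ) 1 := by rwa [mem_ball_zero_iff]
  set b := ψ 0 with hb
  have hb1 : ‖b‖ < 1 := by simpa using hm h00
  have hb1' : ‖-b‖ < 1 := by rwa [norm_neg]
  have hg : DifferentiableOn ℂ (fun z => mob (-b) (ψ z)) (ball 0 1) :=
    (mob_diff hb1').comp hψ hm
  have hgm : MapsTo (fun z => mob (-b) (ψ z)) (ball 0 1) (closedBall 0 1) :=
    fun z hz => ball_subset_closedBall (mob_maps hb1' (hm hz))
  have h1 := norm_le_norm_of_mapsTo_ball hg hgm (by simp [← hb, mob_neg_self]) hz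
  set w := mob (-b) (ψ z) with hw
  have hψz1 : ‖ψ z‖ < 1 := by simpa using hm hzb
  have hψz : ψ z = mob b w := (mob_inv hb1 hψz1).symm
  have hw1 : ‖w‖ < 1 := lt_of_le_of_lt h1 hz
  have hden := mob_den hb1 hw1
  have h2 : ‖1 + conj b * w‖ ^ 2 - ‖w + b‖ ^ 2 = (1 - ‖b‖ ^ 2) * (1 - ‖w‖ ^ 2) := by
    rw [← Complex.normSq_eq_norm_sq, ← Complex.normSq_eq_norm_sq, ← Complex.normSq_eq_norm_sq,
      ← Complex.normSq_eq_norm_sq]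
    simp only [Complex.normSq_apply, Complex.add_re, Complex.add_im, Complex.mul_re,
      Complex.mul_im, Complex.one_re, Complex.one_im, Complex.conj_re, Complex.conj_im]
    ring
  have hD0 : 0 < ‖1 + conj b * w‖ := norm_pos_iff.mpr hden
  have hD2 : ‖1 + conj b * w‖ ≤ 2 := by
    calc ‖1 + conj b * w‖ ≤ ‖(1 : ℂ)‖ + ‖conj b * w‖ := norm_add_le _ _
      _ = 1 + ‖b‖ * ‖w‖ := by rw [norm_one, norm_mul, Complex.norm_conj]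
      _ ≤ 2 := by nlinarith [norm_nonneg b, norm_nonneg w]
  have h3 : ‖ψ z‖ * ‖1 + conj b * w‖ = ‖w + b‖ := by
    rw [hψz, mob, norm_div, div_mul_cancel₀ _ hD0.ne']
  have h4 : (1 - ‖ψ z‖ ^ 2) * ‖1 + conj b * w‖ ^ 2 = (1 - ‖b‖ ^ 2) * (1 - ‖w‖ ^ 2) := by
    rw [← h2, ← h3]; ring
  have h5 : 0 ≤ 1 - ‖ψ z‖ ^ 2 := by nlinarith [norm_nonneg (ψ z)]
  have h6 : (1 - ‖b‖ ^ 2) * (1 - ‖w‖ ^ 2) ≤ (1 - ‖ψ z‖ ^ 2) * 4 := by
    rw [← h4]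
    have : ‖1 + conj b * w‖ ^ 2 ≤ 4 := by nlinarith
    gcongr
  have h7 : 1 - ‖z‖ ≤ 1 - ‖w‖ ^ 2 := by nlinarith [norm_nonneg w]
  have h8 : 0 ≤ 1 - ‖b‖ ^ 2 := by nlinarith [norm_nonneg b]
  have h9 : (1 - ‖b‖ ^ 2) * (1 - ‖z‖) ≤ (1 - ‖b‖ ^ 2) * (1 - ‖w‖ ^ 2) := by gcongr
  nlinarith [norm_nonneg (ψ z)]

/-- The criterion for non-admissibility. -/
def NA (f : ℂ → ℂ) : Prop := ∃ n : ℕ, ∀ ρ η : ℂ, ‖ρ‖ < 1 → η ≠ 0 → ‖η‖ < 1 / 2 →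
  ‖η‖ ≤ 1 - ‖ρ‖ → ∃ k : ℂ → ℂ, DifferentiableOn ℂ k (ball 0 1) ∧
    (∀ z ∈ ball (0 : ℂ) 1, k z ≠ 0) ∧ (∀ z ∈ ball (0 : ℂ) 1, ‖k z‖ < 1) ∧
    (∀ z ∈ ball (0 : ℂ) 1, ‖k z * f (ρ * z)‖ < 1) ∧ ‖η‖ ^ n < ‖k 0‖

theorem NA.comp {f : ℂ → ℂ} (h : NA f) {ψ : ℂ → ℂ} (hψ : DifferentiableOn ℂ ψ (ball 0 1))
    (hm : MapsTo ψ (ball 0 1) (ball 0 1)) : NA (fun z => f (ψ z)) := by
  obtain ⟨n, hn⟩ := h
  have h00 : (0 : ℂ) ∈ ball (0 : ℂ) 1 := mem_ball_self one_pos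
  set b := ψ 0 with hb
  have hb1 : ‖b‖ < 1 := by simpa using hm h00
  set κ : ℝ := (1 - ‖b‖ ^ 2) / 8 with hκ
  have hκ0 : 0 < κ := by
    have : 0 < 1 - ‖b‖ ^ 2 := by nlinarith [norm_nonneg b]
    positivity
  have hκ8 : κ ≤ 1 / 8 := by
    rw [hκ]; nlinarith [norm_nonneg b]
  set q : ℝ := (1 + ‖b‖) / 2 with hq
  have hq1 : q < 1 := by rw [hq]; linarith
  obtain ⟨N, hN⟩ := exists_nat_ge ((1 + q) / (1 - q))
  obtain ⟨m, hm'⟩ := exists_pow_lt_of_lt_one (show 0 < (κ / 2) ^ (n * N) by positivity)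
    (show (1 / 2 : ℝ) < 1 by norm_num)
  refine ⟨n * N + m, ?_⟩
  intro ρ η hρ hη0 hη2 hηρ
  have hηn : 0 < ‖η‖ := norm_pos_iff.mpr hη0
  set r : ℝ := 1 - κ / 2 * ‖η‖ with hr
  have hκη : κ / 2 * ‖η‖ < 1 / 32 := by nlinarith
  have hκη0 : 0 < κ / 2 * ‖η‖ := by positivity
  have hr0 : 0 < r := by rw [hr]; linarith
  have hr1 : r < 1 := by rw [hr]; linarith
  have hrn : ‖(r : ℂ)‖ = r := by rw [Complex.norm_real, Real.norm_of_nonneg hr0.le]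
  have hη'n : ‖((κ / 2 : ℝ) : ℂ) * η‖ = κ / 2 * ‖η‖ := by
    rw [norm_mul, Complex.norm_real, Real.norm_of_nonneg (by positivity)]
  obtain ⟨k', hk'd, hk'0, hk'1, hk'f, hk'n⟩ := hn (r : ℂ) (((κ / 2 : ℝ) : ℂ) * η)
    (by rw [hrn]; exact hr1)
    (by
      intro h0
      rw [h0, norm_zero] at hη'n
      linarith)
    (by rw [hη'n]; linarith) (by rw [hη'n, hrn, hr]; linarith)
  set ω : ℂ → ℂ := fun z => ψ (ρ * z) / r with hω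
  have hρz : ∀ z ∈ ball (0 : ℂ) 1, ‖ρ * z‖ ≤ ‖ρ‖ := by
    intro z hz
    rw [mem_ball_zero_iff] at hz
    rw [norm_mul]
    nlinarith [norm_nonneg ρ, norm_nonneg z]
  have hρm : MapsTo (fun z : ℂ => ρ * z) (ball 0 1) (ball 0 1) := by
    intro z hz
    rw [mem_ball_zero_iff]
    exact lt_of_le_of_lt (hρz z hz) hρ
  have hψρ : DifferentiableOn ℂ (fun z => ψ (ρ * z)) (ball 0 1) := hψ.comp (by fun_prop) hρm
  have hωd : DifferentiableOn ℂ ω (ball 0 1) := hψρ.div_const _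
  have hωm : MapsTo ω (ball 0 1) (ball 0 1) := by
    intro z hz
    rw [mem_ball_zero_iff, hω]
    simp only
    rw [norm_div, hrn, div_lt_one hr0]
    have h1 := selfmap hψ hm (z := ρ * z) (lt_of_le_of_lt (hρz z hz) hρ)
    rw [← hb, ← hκ] at h1
    have h2 : κ * ‖η‖ ≤ κ * (1 - ‖ρ * z‖) := by
      have := hρz z hz
      gcongr
      linarith
    rw [hr]
    nlinarith
  refine ⟨fun z => k' (ω z), hk'd.comp hωd hωm, fun z hz => hk'0 _ (hωm hz),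
    fun z hz => hk'1 _ (hωm hz), ?_, ?_⟩
  · intro z hz
    have h1 := hk'f _ (hωm hz)
    have h2 : (r : ℂ) * ω z = ψ (ρ * z) := by
      have : (r : ℂ) ≠ 0 := by exact_mod_cast hr0.ne'
      simp only [hω]
      field_simp
    rwa [h2] at h1
  · have hω0 : ‖ω 0‖ ≤ q := by
      simp only [hω, mul_zero]
      rw [norm_div, hrn, ← hb, div_le_iff₀ hr0, hq, hr]
      have h1 : κ / 2 * ‖η‖ ≤ (1 - ‖b‖) / 16 := by
        have h2 : κ ≤ (1 - ‖b‖) / 4 := by rw [hκ]; nlinarith [norm_nonneg b]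
        nlinarith
      nlinarith [norm_nonneg b]
    have h1 := harnack hk'd hk'0 hk'1 hq1 hN hω0
    rw [hη'n] at hk'n
    calc ‖η‖ ^ (n * N + m) = ‖η‖ ^ (n * N) * ‖η‖ ^ m := pow_add _ _ _
      _ ≤ ‖η‖ ^ (n * N) * (1 / 2) ^ m := by gcongr
      _ < ‖η‖ ^ (n * N) * (κ / 2) ^ (n * N) := by
        have : 0 < ‖η‖ ^ (n * N) := by positivity
        gcongr
      _ = ((κ / 2 * ‖η‖) ^ n) ^ N := by rw [← mul_pow, ← pow_mul]; ring_nf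
      _ ≤ ‖k' 0‖ ^ N := by gcongr
      _ ≤ _ := h1

theorem NA.iff_comp {f : ℂ → ℂ} {φ ψ : ℂ → ℂ} (hφ : DifferentiableOn ℂ φ (ball 0 1))
    (hφm : MapsTo φ (ball 0 1) (ball 0 1)) (hψ : DifferentiableOn ℂ ψ (ball 0 1))
    (hψm : MapsTo ψ (ball 0 1) (ball 0 1)) (hinv : ∀ z ∈ ball (0 : ℂ) 1, ψ (φ z) = z) :
    NA (fun z => f (ψ z)) ↔ NA f := by
  constructor
  · intro h
    obtain ⟨n, hn⟩ := h.comp hφ hφm
    refine ⟨n, fun ρ η h1 h2 h3 h4 => ?_⟩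
    obtain ⟨k, hk, hk0, hk1, hkf, hkn⟩ := hn ρ η h1 h2 h3 h4
    refine ⟨k, hk, hk0, hk1, fun z hz => ?_, hkn⟩
    have h5 := hkf z hz
    simp only at h5
    rwa [hinv] at h5
    rw [mem_ball_zero_iff] at hz ⊢
    rw [norm_mul]
    nlinarith [norm_nonneg ρ, norm_nonneg z]
  · exact fun h => h.comp hψ hψm

end Pool.Agent.V11234.HD
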