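import Mathlib

set_option autoImplicit false

namespace Pool.Agent.V11234.HD

open Metric Set Complex Filter Topology ComplexConjugate

/-- The functions on the circle of the form `A + conj B`, with `A`, `B` entire. -/
def IsTrig (g : C(AddCircle (2 * Real.pi), ℂ)) : Prop :=
  ∃ A B : ℂ → ℂ, Differentiable ℂ A ∧ Differentiable ℂ B ∧
    ∀ θ : ℝ, g (θ : AddCircle (2 * Real.pi)) = A (exp (θ * I)) + conj (B (exp (θ * I)))

theorem isTrig_fourier (n : ℤ) : IsTrig (fourier n) := by
  have hpi : (Real.pi : ℂ) ≠ 0 := by exact_mod_cast Real.pi_ne_zero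
  have key : ∀ θ : ℝ, fourier n (θ : AddCircle (2 * Real.pi)) = exp (n * (θ * I)) := by
    intro θ
    rw [fourier_coe_apply]
    congr 1
    push_cast
    field_simp
  rcases le_total 0 n with h | h
  · lift n to ℕ using h
    refine ⟨fun z => z ^ n, fun _ => 0, by fun_prop, by fun_prop, fun θ => ?_⟩
    rw [key, map_zero, add_zero]
    simp only
    rw [← Complex.exp_nat_mul, Int.cast_natCast]
  · obtain ⟨m, rfl⟩ : ∃ m : ℕ, n = -m := ⟨n.natAbs, by omega⟩
    refine ⟨fun _ => 0, fun z => z ^ m, by fun_prop, by fun_prop, fun θ => ?_⟩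
    rw [key, zero_add, map_pow, ← Complex.exp_conj, ← Complex.exp_nat_mul]
    congr 1
    simp

theorem isTrig_span {g : C(AddCircle (2 * Real.pi), ℂ)}
    (hg : g ∈ Submodule.span ℂ (range (@fourier (2 * Real.pi)))) : IsTrig g := by
  induction hg using Submodule.span_induction with
  | mem x hx =>
    obtain ⟨n, rfl⟩ := hx
    exact isTrig_fourier n
  | zero => exact ⟨fun _ => 0, fun _ => 0, by fun_prop, by fun_prop, fun θ => by simp⟩
  | add x y _ _ hx hy =>
    obtain ⟨A, B, hA, hB, h⟩ := hx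
    obtain ⟨A', B', hA', hB', h'⟩ := hy
    refine ⟨fun z => A z + A' z, fun z => B z + B' z, by fun_prop, by fun_prop, fun θ => ?_⟩
    rw [ContinuousMap.add_apply, h, h', map_add]
    ring
  | smul a x _ hx =>
    obtain ⟨A, B, hA, hB, h⟩ := hx
    refine ⟨fun z => a * A z, fun z => conj a * B z, by fun_prop, by fun_prop, fun θ => ?_⟩
    rw [ContinuousMap.smul_apply, h, map_mul, conj_conj, smul_eq_mul]
    ring

theorem trig_approx {u : ℂ → ℝ} (hu : Continuous u) {ε : ℝ} (hε : 0 < ε) :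
    ∃ Q : ℂ → ℂ, Differentiable ℂ Q ∧ ∀ z ∈ sphere (0 : ℂ) 1, |(Q z).re - u z| ≤ ε := by
  have : Fact (0 < 2 * Real.pi) := ⟨by positivity⟩
  set g : C(AddCircle (2 * Real.pi), ℂ) :=
    ⟨fun x => (u (AddCircle.toCircle x) : ℂ), by fun_prop⟩ with hg
  have hmem : g ∈ (Submodule.span ℂ (range (@fourier (2 * Real.pi)))).topologicalClosure := by
    rw [span_fourier_closure_eq_top]; trivial
  have hcl : g ∈ closure ((Submodule.span ℂ (range (@fourier (2 * Real.pi))) :
      Submodule ℂ C(AddCircle (2 * Real.pi), ℂ)) : Set C(AddCircle (2 * Real.pi), ℂ)) := hmem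
  rw [Metric.mem_closure_iff] at hcl
  obtain ⟨p, hp, hpd⟩ := hcl ε hε
  obtain ⟨A, B, hA, hB, h⟩ := isTrig_span hp
  refine ⟨fun z => A z + B z, by fun_prop, ?_⟩
  intro z hz
  have hz1 : ‖z‖ = 1 := by simpa using hz
  have hzθ : z = exp (Complex.arg z * I) := by
    have := Complex.norm_mul_exp_arg_mul_I z
    rw [hz1] at this
    simpa using this.symm
  set θ := Complex.arg z with hθ
  have h1 := h θ
  rw [← hzθ] at h1
  have h2 : g (θ : AddCircle (2 * Real.pi)) = (u z : ℂ) := by
    rw [hg]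
    simp only [ContinuousMap.coe_mk]
    congr 2
    rw [AddCircle.toCircle_apply_mk]
    rw [hzθ]
    rw [Circle.coe_exp]
    congr 2
    push_cast
    have hpi : (Real.pi : ℂ) ≠ 0 := by exact_mod_cast Real.pi_ne_zero
    field_simp
  have h3 : dist (g (θ : AddCircle (2 * Real.pi))) (p (θ : AddCircle (2 * Real.pi))) ≤ dist g p :=
    ContinuousMap.dist_apply_le_dist _
  rw [h2, h1, dist_eq_norm] at h3
  have h4 : (((u z : ℂ)) - (A z + conj (B z))).re = u z - (A z + B z).re := by
    simp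
  have h5 := Complex.abs_re_le_norm ((u z : ℂ) - (A z + conj (B z)))
  rw [h4] at h5
  simp only
  rw [abs_sub_comm]
  linarith

end Pool.Agent.V11234.HD
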