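import Mathlib
import Pool.Agent.V11234.HD.Harnack
import Pool.Agent.V11234.HD.Trig

set_option autoImplicit false

namespace Pool.Agent.V11234.HD

open Metric Set Complex Filter Topology ComplexConjugate

/-- The Nevanlinna characteristic as a circle average. -/
noncomputable def TF (F : ℂ → ℂ) (r : ℝ) : ℝ :=
  Real.circleAverage (fun z => max (Real.log ‖F z‖) 0) 0 r

theorem cont_poslog : Continuous (fun x : ℝ => max (Real.log x) 0) := by
  have h := Real.continuous_posLog
  have : (fun x : ℝ => max (Real.log x) 0) = Real.posLog := by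
    ext x
    rw [Real.posLog_apply, max_comm]
  rw [this]; exact h

theorem TF_nonneg (F : ℂ → ℂ) (r : ℝ) : 0 ≤ TF F r :=
  Real.circleAverage_nonneg_of_nonneg (fun _ _ => le_max_right _ _)

theorem TF_scale (F : ℂ → ℂ) (r s : ℝ) :
    TF F (r * s) = Real.circleAverage (fun z => max (Real.log ‖F (r * z)‖) 0) 0 s := by
  unfold TF
  rw [Real.circleAverage_def, Real.circleAverage_def]
  congr 1
  apply intervalIntegral.integral_congr
  intro θ _
  simp only
  congr 4
  simp [circleMap]
  ring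

theorem le_exp_poslog (x : ℝ) (hx : 0 ≤ x) : x ≤ Real.exp (max (Real.log x) 0) := by
  rcases hx.eq_or_lt with rfl | h
  · exact (Real.exp_pos _).le
  · calc x = Real.exp (Real.log x) := (Real.exp_log h).symm
      _ ≤ _ := Real.exp_le_exp.mpr (le_max_left _ _)

theorem NA_bound {F : ℂ → ℂ} (hF : DifferentiableOn ℂ F (ball 0 1)) {r s : ℝ} (hr0 : 0 < r)
    (hr : r < 1) (hs0 : 0 < s) (hs : s < 1) {k : ℂ → ℂ} (hk : DifferentiableOn ℂ k (ball 0 1))
    (hk0 : ∀ z ∈ ball (0 : ℂ) 1, k z ≠ 0) (hk1 : ∀ z ∈ ball (0 : ℂ) 1, ‖k z‖ < 1)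
    (hkf : ∀ z ∈ ball (0 : ℂ) 1, ‖k z * F (r * z)‖ < 1) : TF F (r * s) ≤ -Real.log ‖k 0‖ := by
  rw [TF_scale]
  have hsub : closedBall (0 : ℂ) |s| ⊆ ball 0 1 := by
    rw [abs_of_pos hs0]; exact closedBall_subset_ball hs
  have hrm : MapsTo (fun z : ℂ => (r : ℂ) * z) (ball 0 1) (ball 0 1) := by
    intro z hz
    rw [mem_ball_zero_iff] at hz ⊢
    rw [norm_mul, Complex.norm_real, Real.norm_of_nonneg hr0.le]
    nlinarith [norm_nonneg z]
  have h1 : Real.circleAverage (fun z => Real.log ‖k z‖) 0 s = Real.log ‖k 0‖ :=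
    AnalyticOnNhd.circleAverage_log_norm_of_ne_zero
      ((hk.analyticOnNhd isOpen_ball).mono hsub) (fun u hu => hk0 u (hsub hu))
  have h2 : Real.circleAverage (fun z => -Real.log ‖k z‖) 0 s = -Real.log ‖k 0‖ := by
    rw [← h1]
    have := Real.circleAverage_fun_smul (a := (-1 : ℝ)) (f := fun z => Real.log ‖k z‖) (c := 0) (R := s)
    simpa using this
  rw [← h2]
  have hsph : sphere (0 : ℂ) |s| ⊆ ball 0 1 := sphere_subset_closedBall.trans hsub
  apply Real.circleAverage_mono
  · apply ContinuousOn.circleIntegrable'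
    apply cont_poslog.comp_continuousOn
    exact ((hF.continuousOn.comp (by fun_prop) hrm).mono hsph).norm
  · apply ContinuousOn.circleIntegrable'
    apply ContinuousOn.neg
    apply ContinuousOn.log
    · exact (hk.continuousOn.mono hsph).norm
    · intro z hz
      exact norm_ne_zero_iff.mpr (hk0 z (hsph hz))
  · intro z hz
    have hz1 := hsph hz
    have hkz : 0 < ‖k z‖ := norm_pos_iff.mpr (hk0 z hz1)
    apply max_le
    · by_cases hFz : F (r * z) = 0
      · rw [hFz, norm_zero, Real.log_zero]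
        have := Real.log_nonpos hkz.le (hk1 z hz1).le
        linarith
      · have h3 := hkf z hz1
        rw [norm_mul] at h3
        have h4 : 0 < ‖F (r * z)‖ := norm_pos_iff.mpr hFz
        have h5 := Real.log_neg (mul_pos hkz h4) h3
        rw [Real.log_mul hkz.ne' h4.ne'] at h5
        linarith
    · have := Real.log_nonpos hkz.le (hk1 z hz1).le
      linarith

theorem NA_imp {F : ℂ → ℂ} (hF : DifferentiableOn ℂ F (ball 0 1)) (h : NA F) :
    (fun r => TF F r) =O[𝓝[<] 1] (fun r => Real.log (1 / (1 - r))) := by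
  obtain ⟨n, hn⟩ := h
  apply Asymptotics.IsBigO.of_bound (2 * n)
  have hev : ∀ᶠ r : ℝ in 𝓝[<] 1, r ∈ Ioo (1 / 2 : ℝ) 1 :=
    Ioo_mem_nhdsLT (by norm_num)
  filter_upwards [hev] with r hr
  obtain ⟨hr2, hr1⟩ := hr
  set r1 : ℝ := (1 + r) / 2 with hr1d
  have hr10 : 0 < r1 := by rw [hr1d]; linarith
  have hr11 : r1 < 1 := by rw [hr1d]; linarith
  have hη0 : 0 < (1 - r) / 2 := by linarith
  have hηn : ‖(((1 - r) / 2 : ℝ) : ℂ)‖ = (1 - r) / 2 := by
    rw [Complex.norm_real, Real.norm_of_nonneg hη0.le]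
  obtain ⟨k, hk, hk0, hk1, hkf, hkn⟩ := hn (r1 : ℂ) (((1 - r) / 2 : ℝ) : ℂ)
    (by rw [Complex.norm_real, Real.norm_of_nonneg hr10.le]; exact hr11)
    (by exact_mod_cast hη0.ne') (by rw [hηn]; linarith)
    (by rw [hηn, Complex.norm_real, Real.norm_of_nonneg hr10.le, hr1d]; linarith)
  rw [hηn] at hkn
  have hs0 : 0 < r / r1 := by positivity
  have hs1 : r / r1 < 1 := by
    rw [div_lt_one hr10, hr1d]; linarith
  have hb := NA_bound hF hr10 hr11 hs0 hs1 hk hk0 hk1 hkf
  have hrs : r1 * (r / r1) = r := by field_simp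
  rw [hrs] at hb
  have hlog : Real.log (1 / (1 - r)) = -Real.log (1 - r) := by
    rw [one_div, Real.log_inv]
  have hl2 : Real.log 2 ≤ -Real.log (1 - r) := by
    rw [← Real.log_inv]
    apply Real.log_le_log (by norm_num)
    rw [← one_div, le_div_iff₀ (by linarith)]
    linarith
  have hl0 : 0 < Real.log 2 := Real.log_pos (by norm_num)
  rw [Real.norm_of_nonneg (TF_nonneg F r), hlog, Real.norm_of_nonneg (by linarith)]
  have h3 : Real.log (((1 - r) / 2) ^ n) ≤ Real.log ‖k 0‖ :=
    Real.log_le_log (by positivity) hkn.le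
  rw [Real.log_pow, Real.log_div (by linarith) (by norm_num)] at h3
  have hn0 : (0 : ℝ) ≤ n := Nat.cast_nonneg n
  calc TF F r ≤ -Real.log ‖k 0‖ := hb
    _ ≤ n * (-Real.log (1 - r) + Real.log 2) := by linarith
    _ ≤ n * (-Real.log (1 - r) + -Real.log (1 - r)) := by gcongr
    _ = 2 * n * -Real.log (1 - r) := by ring

theorem NA_of_bound {F : ℂ → ℂ} (hF : DifferentiableOn ℂ F (ball 0 1)) {n : ℕ}
    (h : ∀ r : ℝ, 1 / 2 < r → r < 1 → TF F r ≤ n * -Real.log (1 - r)) : NA F := by
  refine ⟨n + 1, ?_⟩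
  intro ρ η hρ hη0 hη2 hηρ
  have hηn : 0 < ‖η‖ := norm_pos_iff.mpr hη0
  set r : ℝ := 1 - ‖η‖ with hr
  have hr2 : 1 / 2 < r := by rw [hr]; linarith
  have hr1 : r < 1 := by rw [hr]; linarith
  have hr0 : 0 < r := by linarith
  have hT := h r hr2 hr1
  have h1r : 1 - r = ‖η‖ := by rw [hr]; ring
  rw [h1r] at hT
  set P : ℂ → ℂ := fun z => (r : ℂ) * (z / (max 1 ‖z‖ : ℝ)) with hP
  have hPc : Continuous P := by
    have : ∀ z : ℂ, ((max 1 ‖z‖ : ℝ) : ℂ) ≠ 0 := by
      intro z
      have : 0 < max 1 ‖z‖ := lt_of_lt_of_le one_pos (le_max_left _ _)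
      exact_mod_cast this.ne'
    apply Continuous.mul continuous_const
    apply Continuous.div continuous_id _ this
    exact Complex.continuous_ofReal.comp (by fun_prop)
  have hPm : ∀ z, P z ∈ ball (0 : ℂ) 1 := by
    intro z
    have h0 : 0 < max 1 ‖z‖ := lt_of_lt_of_le one_pos (le_max_left _ _)
    rw [mem_ball_zero_iff, hP]
    simp only
    rw [norm_mul, norm_div, Complex.norm_real, Complex.norm_real, Real.norm_of_nonneg hr0.le,
      Real.norm_of_nonneg h0.le]
    have h1 : ‖z‖ / max 1 ‖z‖ ≤ 1 := div_le_one_of_le₀ (le_max_right _ _) h0.le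
    nlinarith
  have hPs : ∀ z ∈ sphere (0 : ℂ) 1, P z = r * z := by
    intro z hz
    have hz1 : ‖z‖ = 1 := by simpa using hz
    simp [hP, hz1]
  set u : ℂ → ℝ := fun z => max (Real.log ‖F (P z)‖) 0 with hu
  have huc : Continuous u :=
    cont_poslog.comp ((hF.continuousOn.comp_continuous hPc hPm).norm)
  set ε : ℝ := Real.log 2 / 6 with hε
  have hl0 : 0 < Real.log 2 := Real.log_pos (by norm_num)
  have hε0 : 0 < ε := by positivity
  obtain ⟨Q, hQ, hQu⟩ := trig_approx huc hε0
  set k : ℂ → ℂ := fun z => exp (-(Q z + ((2 * ε : ℝ) : ℂ))) with hk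
  have hkd : Differentiable ℂ k := by rw [hk]; fun_prop
  have hkn : ∀ z, ‖k z‖ = Real.exp (-((Q z).re + 2 * ε)) := by
    intro z
    rw [hk]
    simp only
    rw [Complex.norm_exp, Complex.neg_re, Complex.add_re, Complex.ofReal_re]
  have hrm : MapsTo (fun z : ℂ => (r : ℂ) * z) (closedBall 0 1) (ball 0 1) := by
    intro z hz
    rw [mem_closedBall_zero_iff] at hz
    rw [mem_ball_zero_iff, norm_mul, Complex.norm_real, Real.norm_of_nonneg hr0.le]
    nlinarith [norm_nonneg z]
  have hcl : closure (ball (0 : ℂ) 1) = closedBall 0 1 := closure_ball _ one_ne_zero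
  have hfr : frontier (ball (0 : ℂ) 1) = sphere 0 1 := frontier_ball _ one_ne_zero
  have hkF : DiffContOnCl ℂ (fun z => k z * F (r * z)) (ball 0 1) := by
    apply DifferentiableOn.diffContOnCl
    rw [hcl]
    exact hkd.differentiableOn.mul (hF.comp (by fun_prop) hrm)
  have hkC : DiffContOnCl ℂ k (ball 0 1) := hkd.diffContOnCl
  have hb1 : ∀ z ∈ frontier (ball (0 : ℂ) 1), ‖k z‖ ≤ Real.exp (-ε) := by
    intro z hz
    rw [hfr] at hz
    have h1 := hQu z hz
    rw [hkn, Real.exp_le_exp]
    have h2 : 0 ≤ u z := le_max_right _ _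
    have h3 := neg_abs_le ((Q z).re - u z)
    linarith
  have hb2 : ∀ z ∈ frontier (ball (0 : ℂ) 1), ‖k z * F (r * z)‖ ≤ Real.exp (-ε) := by
    intro z hz
    rw [hfr] at hz
    have h1 := hQu z hz
    have h3 := neg_abs_le ((Q z).re - u z)
    have h4 : ‖F (r * z)‖ ≤ Real.exp (u z) := by
      rw [hu]
      simp only
      rw [hPs z hz]
      exact le_exp_poslog _ (norm_nonneg _)
    rw [norm_mul, hkn]
    calc Real.exp (-((Q z).re + 2 * ε)) * ‖F (r * z)‖
        ≤ Real.exp (-((Q z).re + 2 * ε)) * Real.exp (u z) := by gcongr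
      _ = Real.exp (-((Q z).re + 2 * ε) + u z) := (Real.exp_add _ _).symm
      _ ≤ Real.exp (-ε) := by
        rw [Real.exp_le_exp]; linarith
  have hexp : Real.exp (-ε) < 1 := Real.exp_lt_one_iff.mpr (by linarith)
  have hc1 : ∀ z ∈ closedBall (0 : ℂ) 1, ‖k z‖ < 1 := fun z hz =>
    lt_of_le_of_lt (norm_le_of_forall_mem_frontier_norm_le isBounded_ball hkC hb1
      (by rwa [hcl])) hexp
  have hc2 : ∀ z ∈ closedBall (0 : ℂ) 1, ‖k z * F (r * z)‖ < 1 := fun z hz =>
    lt_of_le_of_lt (norm_le_of_forall_mem_frontier_norm_le isBounded_ball hkF hb2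
      (by rwa [hcl])) hexp
  have hk0 : -Real.log ‖k 0‖ ≤ TF F r + 3 * ε := by
    have h1 : Real.circleAverage (fun z => Real.log ‖k z‖) 0 1 = Real.log ‖k 0‖ :=
      AnalyticOnNhd.circleAverage_log_norm_of_ne_zero
        (hkd.differentiableOn.analyticOnNhd isOpen_univ |>.mono (subset_univ _))
        (fun z _ => Complex.exp_ne_zero _)
    have h2 : Real.circleAverage (fun z => -Real.log ‖k z‖) 0 1 = -Real.log ‖k 0‖ := by
      rw [← h1]
      have := Real.circleAverage_fun_smul (a := (-1 : ℝ)) (f := fun z => Real.log ‖k z‖)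
        (c := 0) (R := 1)
      simpa using this
    have h3 : TF F r = Real.circleAverage (fun z => max (Real.log ‖F (r * z)‖) 0) 0 1 := by
      rw [← TF_scale, mul_one]
    have hsph : sphere (0 : ℂ) |1| ⊆ closedBall 0 1 := by
      rw [abs_one]; exact sphere_subset_closedBall
    have hint : CircleIntegrable (fun z => max (Real.log ‖F (r * z)‖) 0) 0 1 := by
      apply ContinuousOn.circleIntegrable'
      apply cont_poslog.comp_continuousOn
      exact ((hF.continuousOn.comp (by fun_prop) hrm).mono hsph).norm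
    have h4 : TF F r + 3 * ε =
        Real.circleAverage (fun z => max (Real.log ‖F (r * z)‖) 0 + 3 * ε) 0 1 := by
      rw [Real.circleAverage_fun_add hint (circleIntegrable_const _ _ _), ← h3,
        Real.circleAverage_const]
    rw [← h2, h4]
    apply Real.circleAverage_mono
    · apply ContinuousOn.circleIntegrable'
      apply ContinuousOn.neg
      apply ContinuousOn.log
      · exact hkd.continuous.norm.continuousOn
      · intro z _
        exact norm_ne_zero_iff.mpr (Complex.exp_ne_zero _)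
    · exact hint.add (circleIntegrable_const _ _ _)
    · intro z hz
      rw [abs_one] at hz
      have h5 := hQu z hz
      have h6 := le_abs_self ((Q z).re - u z)
      rw [hkn, Real.log_exp, neg_neg]
      have h7 : u z = max (Real.log ‖F (r * z)‖) 0 := by
        rw [hu]
        simp only
        rw [hPs z hz]
      rw [← h7]
      linarith
  -- conclusion
  set ω : ℂ → ℂ := fun z => ρ * z / r with hω
  have hrn : ‖(r : ℂ)‖ = r := by rw [Complex.norm_real, Real.norm_of_nonneg hr0.le]
  have hωm : MapsTo ω (ball 0 1) (closedBall 0 1) := by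
    intro z hz
    rw [mem_ball_zero_iff] at hz
    rw [mem_closedBall_zero_iff, hω]
    simp only
    rw [norm_div, norm_mul, hrn, div_le_one hr0, hr]
    nlinarith [norm_nonneg ρ, norm_nonneg z]
  refine ⟨fun z => k (ω z), ?_, fun z hz => Complex.exp_ne_zero _, fun z hz => hc1 _ (hωm hz),
    ?_, ?_⟩
  · exact (hkd.comp (by rw [hω]; fun_prop)).differentiableOn
  · intro z hz
    have h1 := hc2 _ (hωm hz)
    have h2 : (r : ℂ) * ω z = ρ * z := by
      have : (r : ℂ) ≠ 0 := by exact_mod_cast hr0.ne'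
      simp only [hω]
      field_simp
    rwa [h2] at h1
  · have hω0 : ω 0 = 0 := by simp [hω]
    simp only
    rw [hω0]
    have hkp : 0 < ‖k 0‖ := norm_pos_iff.mpr (Complex.exp_ne_zero _)
    rw [← Real.log_lt_log_iff (by positivity) hkp, Real.log_pow]
    push_cast
    have h5 : Real.log ‖η‖ < - Real.log 2 := by
      rw [← Real.log_inv]
      apply Real.log_lt_log hηn
      rw [← one_div]; exact hη2
    rw [hε] at hk0
    have h6 : ((n : ℝ) + 1) * Real.log ‖η‖ = n * Real.log ‖η‖ + Real.log ‖η‖ := by ring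
    rw [h6]
    linarith

theorem NA_of_isBigO {F : ℂ → ℂ} (hF : DifferentiableOn ℂ F (ball 0 1))
    (h : (fun r => TF F r) =O[𝓝[<] 1] (fun r => Real.log (1 / (1 - r)))) : NA F := by
  obtain ⟨C, hC⟩ := h.bound
  obtain ⟨r0, hr0, hr0C⟩ := (mem_nhdsLT_iff_exists_Ioo_subset' (by norm_num : (0 : ℝ) < 1)).mp hC
  have hr01 : r0 < 1 := hr0
  set R : ℝ := max r0 (1 / 2) with hR
  have hR1 : R < 1 := max_lt hr01 (by norm_num)
  have hR2 : 1 / 2 ≤ R := le_max_right _ _
  have hsub : closedBall (0 : ℂ) R ⊆ ball 0 1 := closedBall_subset_ball hR1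
  obtain ⟨M, hM⟩ := (isCompact_closedBall (0 : ℂ) R).exists_bound_of_continuousOn
    (cont_poslog.comp_continuousOn (hF.continuousOn.mono hsub).norm)
  have hl0 : 0 < Real.log 2 := Real.log_pos (by norm_num)
  obtain ⟨n, hn⟩ := exists_nat_ge (max C (M / Real.log 2))
  have hnC : C ≤ n := (le_max_left _ _).trans hn
  have hnM : M ≤ n * Real.log 2 := by
    have := (le_max_right C (M / Real.log 2)).trans hn
    rwa [div_le_iff₀ hl0] at this
  apply NA_of_bound hF (n := n)
  intro r hr2 hr1
  have hl2 : Real.log 2 ≤ -Real.log (1 - r) := by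
    rw [← Real.log_inv]
    apply Real.log_le_log (by norm_num)
    rw [← one_div, le_div_iff₀ (by linarith)]
    linarith
  by_cases hrR : r ≤ R
  · have h1 : TF F r ≤ M := by
      have hsph : sphere (0 : ℂ) |r| ⊆ closedBall 0 R := by
        rw [abs_of_pos (by linarith)]
        exact sphere_subset_closedBall.trans (closedBall_subset_closedBall hrR)
      have := Real.circleAverage_mono (c := 0) (R := r)
        (f₁ := fun z => max (Real.log ‖F z‖) 0) (f₂ := fun _ => M) ?_
        (circleIntegrable_const _ _ _) ?_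
      · rwa [Real.circleAverage_const] at this
      · apply ContinuousOn.circleIntegrable'
        exact cont_poslog.comp_continuousOn ((hF.continuousOn.mono hsub).mono hsph).norm
      · intro z hz
        have := hM z (hsph hz)
        simp only [Function.comp] at this
        exact (le_abs_self _).trans this
    calc TF F r ≤ M := h1
      _ ≤ n * Real.log 2 := hnM
      _ ≤ _ := by gcongr
  · have h1 : r ∈ Ioo r0 1 := ⟨lt_of_le_of_lt (le_max_left _ _) (not_le.mp hrR), hr1⟩
    have h2 := hr0C h1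
    simp only [mem_ofPred_eq] at h2
    rw [Real.norm_of_nonneg (TF_nonneg F r), one_div, Real.log_inv,
      Real.norm_of_nonneg (by linarith)] at h2
    refine h2.trans ?_
    have : 0 ≤ -Real.log (1 - r) := by linarith
    gcongr

theorem NA_iff {F : ℂ → ℂ} (hF : DifferentiableOn ℂ F (ball 0 1)) :
    NA F ↔ (fun r => TF F r) =O[𝓝[<] 1] (fun r => Real.log (1 / (1 - r))) :=
  ⟨NA_imp hF, NA_of_isBigO hF⟩

end Pool.Agent.V11234.HD
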