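import Mathlib

set_option autoImplicit false

namespace Pool.Agent.V11234.HD

open FirstOrder FirstOrder.Language FirstOrder.Ring

variable {M : Type*} [CommRing M] [CompatibleRing M]

/-- A predicate of assignments is definable without parameters in the ring `M`. -/
def Def (P : (ℕ → M) → Prop) : Prop :=
  ∃ φ : Language.ring.Formula ℕ, ∀ v : ℕ → M, φ.Realize v ↔ P v

/-- A function of assignments given by a ring term. -/
def DefT (t : (ℕ → M) → M) : Prop :=
  ∃ τ : Language.ring.Term ℕ, ∀ v : ℕ → M, τ.realize v = t v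

theorem DefT.var (i : ℕ) : DefT (fun v : ℕ → M => v i) := ⟨Term.var i, fun _ => rfl⟩

theorem DefT.add {a b : (ℕ → M) → M} (ha : DefT a) (hb : DefT b) : DefT (fun v => a v + b v) := by
  obtain ⟨s, hs⟩ := ha
  obtain ⟨t, ht⟩ := hb
  exact ⟨s + t, fun v => by rw [realize_add, hs, ht]⟩

theorem DefT.mul {a b : (ℕ → M) → M} (ha : DefT a) (hb : DefT b) : DefT (fun v => a v * b v) := by
  obtain ⟨s, hs⟩ := ha
  obtain ⟨t, ht⟩ := hb
  exact ⟨s * t, fun v => by rw [realize_mul, hs, ht]⟩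

theorem DefT.neg {a : (ℕ → M) → M} (ha : DefT a) : DefT (fun v => -a v) := by
  obtain ⟨s, hs⟩ := ha
  exact ⟨-s, fun v => by rw [realize_neg, hs]⟩

theorem DefT.sub {a b : (ℕ → M) → M} (ha : DefT a) (hb : DefT b) : DefT (fun v => a v - b v) := by
  obtain ⟨s, hs⟩ := ha
  obtain ⟨t, ht⟩ := hb
  exact ⟨s + -t, fun v => by rw [realize_add, realize_neg, hs, ht]; exact (sub_eq_add_neg _ _).symm⟩

theorem DefT.zero : DefT (fun _ : ℕ → M => (0 : M)) := ⟨0, fun v => by rw [realize_zero]⟩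

theorem DefT.one : DefT (fun _ : ℕ → M => (1 : M)) := ⟨1, fun v => by rw [realize_one]⟩

theorem Def.eq {a b : (ℕ → M) → M} (ha : DefT a) (hb : DefT b) : Def (fun v => a v = b v) := by
  obtain ⟨s, hs⟩ := ha
  obtain ⟨t, ht⟩ := hb
  exact ⟨s.equal t, fun v => by rw [Formula.realize_equal, hs, ht]⟩

theorem Def.not {P : (ℕ → M) → Prop} (h : Def P) : Def (fun v => ¬ P v) := by
  obtain ⟨φ, h⟩ := h
  exact ⟨φ.not, fun v => by rw [Formula.realize_not, h]⟩

theorem Def.and {P Q : (ℕ → M) → Prop} (h : Def P) (h' : Def Q) : Def (fun v => P v ∧ Q v) := by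
  obtain ⟨φ, h⟩ := h
  obtain ⟨ψ, h'⟩ := h'
  exact ⟨φ ⊓ ψ, fun v => by rw [Formula.realize_inf, h, h']⟩

theorem Def.or {P Q : (ℕ → M) → Prop} (h : Def P) (h' : Def Q) : Def (fun v => P v ∨ Q v) := by
  obtain ⟨φ, h⟩ := h
  obtain ⟨ψ, h'⟩ := h'
  exact ⟨φ ⊔ ψ, fun v => by rw [Formula.realize_sup, h, h']⟩

theorem Def.imp {P Q : (ℕ → M) → Prop} (h : Def P) (h' : Def Q) : Def (fun v => P v → Q v) := by
  obtain ⟨φ, h⟩ := h
  obtain ⟨ψ, h'⟩ := h'
  exact ⟨φ.imp ψ, fun v => by rw [Formula.realize_imp, h, h']⟩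

theorem Def.iff {P Q : (ℕ → M) → Prop} (h : Def P) (h' : Def Q) : Def (fun v => P v ↔ Q v) := by
  obtain ⟨φ, h⟩ := h
  obtain ⟨ψ, h'⟩ := h'
  exact ⟨φ.iff ψ, fun v => by rw [Formula.realize_iff, h, h']⟩

theorem Def.congr {P Q : (ℕ → M) → Prop} (h : Def P) (h' : ∀ v, P v ↔ Q v) : Def Q := by
  obtain ⟨φ, h⟩ := h
  exact ⟨φ, fun v => by rw [h, h']⟩

theorem Def.ex {P : (ℕ → M) → M → Prop} (h : Def (fun v => P (fun i => v (i + 1)) (v 0))) :
    Def (fun v => ∃ x, P v x) := by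
  obtain ⟨φ, h⟩ := h
  refine ⟨Formula.iExs Unit
    (φ.relabel (fun i : ℕ => Nat.casesOn (motive := fun _ => ℕ ⊕ Unit) i (Sum.inr ()) Sum.inl)), fun v => ?_⟩
  rw [Formula.realize_iExs]
  constructor
  · rintro ⟨i, hi⟩
    rw [Formula.realize_relabel, h] at hi
    exact ⟨i (), hi⟩
  · rintro ⟨x, hx⟩
    refine ⟨fun _ => x, ?_⟩
    rw [Formula.realize_relabel, h]
    exact hx

theorem Def.all {P : (ℕ → M) → M → Prop} (h : Def (fun v => P (fun i => v (i + 1)) (v 0))) :
    Def (fun v => ∀ x, P v x) := by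
  have := (Def.ex (P := fun v x => ¬ P v x) h.not).not
  exact this.congr (fun v => by push Not; rfl)

theorem Def.subst {P : (ℕ → M) → Prop} (h : Def P) {σ : ℕ → (ℕ → M) → M} (hσ : ∀ i, DefT (σ i)) :
    Def (fun v => P (fun i => σ i v)) := by
  obtain ⟨φ, h⟩ := h
  choose τ hτ using hσ
  refine ⟨BoundedFormula.subst φ τ, fun v => ?_⟩
  rw [Formula.Realize, BoundedFormula.realize_subst]
  have : (fun a => (τ a).realize v) = fun i => σ i v := funext fun i => hτ i v
  rw [this]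
  exact h _

/-- unary predicates. -/
def Def1 (Q : M → Prop) : Prop := Def (fun v : ℕ → M => Q (v 0))
/-- binary predicates. -/
def Def2 (Q : M → M → Prop) : Prop := Def (fun v : ℕ → M => Q (v 0) (v 1))
/-- ternary predicates. -/
def Def3 (Q : M → M → M → Prop) : Prop := Def (fun v : ℕ → M => Q (v 0) (v 1) (v 2))
/-- 4-ary predicates. -/
def Def4 (Q : M → M → M → M → Prop) : Prop :=
  Def (fun v : ℕ → M => Q (v 0) (v 1) (v 2) (v 3))

theorem Def1.app {Q : M → Prop} (h : Def1 Q) {a : (ℕ → M) → M} (ha : DefT a) :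
    Def (fun v => Q (a v)) :=
  Def.subst h (σ := fun _ => a) (fun _ => ha)

theorem Def2.app {Q : M → M → Prop} (h : Def2 Q) {a b : (ℕ → M) → M} (ha : DefT a)
    (hb : DefT b) : Def (fun v => Q (a v) (b v)) :=
  Def.subst h (σ := fun i => match i with | 0 => a | _ => b)
    (fun i => by rcases i with _ | i <;> assumption)

theorem Def3.app {Q : M → M → M → Prop} (h : Def3 Q) {a b c : (ℕ → M) → M} (ha : DefT a)
    (hb : DefT b) (hc : DefT c) : Def (fun v => Q (a v) (b v) (c v)) :=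
  Def.subst h (σ := fun i => match i with | 0 => a | 1 => b | _ => c)
    (fun i => by rcases i with _ | _ | i <;> assumption)

theorem Def4.app {Q : M → M → M → M → Prop} (h : Def4 Q) {a b c d : (ℕ → M) → M} (ha : DefT a)
    (hb : DefT b) (hc : DefT c) (hd : DefT d) : Def (fun v => Q (a v) (b v) (c v) (d v)) :=
  Def.subst h (σ := fun i => match i with | 0 => a | 1 => b | 2 => c | _ => d)
    (fun i => by rcases i with _ | _ | _ | i <;> assumption)

/-- Pass to a formula with one free variable. -/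
theorem Def1.formula {Q : M → Prop} (h : Def1 Q) :
    ∃ φ : Language.ring.Formula (Fin 1), ∀ f : M, φ.Realize (fun _ => f) ↔ Q f := by
  obtain ⟨φ, h⟩ := h
  refine ⟨φ.relabel (fun _ => 0), fun f => ?_⟩
  rw [Formula.realize_relabel]
  exact h _

end Pool.Agent.V11234.HD
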