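import Mathlib

set_option autoImplicit false

namespace Pool.Agent.V11234.HD

open Metric Set Complex Filter Topology

/-- The ring of holomorphic functions on the open unit disc. -/
def HD : Subring (ball (0 : ℂ) 1 → ℂ) where
  carrier := {f | ∃ F : ℂ → ℂ, DifferentiableOn ℂ F (ball 0 1) ∧ ∀ z, f z = F z}
  mul_mem' := by
    rintro a b ⟨A, hA, hAa⟩ ⟨B, hB, hBb⟩
    exact ⟨fun z => A z * B z, hA.mul hB, fun z => by rw [Pi.mul_apply, hAa, hBb]⟩
  one_mem' := ⟨fun _ => 1, differentiableOn_const _, fun z => rfl⟩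
  add_mem' := by
    rintro a b ⟨A, hA, hAa⟩ ⟨B, hB, hBb⟩
    exact ⟨fun z => A z + B z, hA.add hB, fun z => by rw [Pi.add_apply, hAa, hBb]⟩
  zero_mem' := ⟨fun _ => 0, differentiableOn_const _, fun z => rfl⟩
  neg_mem' := by
    rintro a ⟨A, hA, hAa⟩
    exact ⟨fun z => -A z, hA.neg, fun z => by rw [Pi.neg_apply, hAa]⟩

/-- Build an element of the ring. -/
def mk (F : ℂ → ℂ) (hF : DifferentiableOn ℂ F (ball 0 1)) : HD :=
  ⟨fun z => F z, F, hF, fun _ => rfl⟩

@[simp] theorem mk_apply (F : ℂ → ℂ) (hF : DifferentiableOn ℂ F (ball 0 1)) (z : ball (0 : ℂ) 1) :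
    (mk F hF).1 z = F z := rfl

theorem ext' {f g : HD} (h : ∀ z, f.1 z = g.1 z) : f = g := Subtype.ext (funext h)

@[simp] theorem mul_val (f g : HD) (z : ball (0 : ℂ) 1) : (f * g).1 z = f.1 z * g.1 z := rfl
@[simp] theorem add_val (f g : HD) (z : ball (0 : ℂ) 1) : (f + g).1 z = f.1 z + g.1 z := rfl
@[simp] theorem sub_val (f g : HD) (z : ball (0 : ℂ) 1) : (f - g).1 z = f.1 z - g.1 z := rfl
@[simp] theorem neg_val (f : HD) (z : ball (0 : ℂ) 1) : (-f).1 z = -(f.1 z) := rfl
@[simp] theorem one_val (z : ball (0 : ℂ) 1) : (1 : HD).1 z = 1 := rfl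
@[simp] theorem zero_val (z : ball (0 : ℂ) 1) : (0 : HD).1 z = 0 := rfl

theorem rep (f : HD) : ∃ F : ℂ → ℂ, ∃ hF : DifferentiableOn ℂ F (ball 0 1), f = mk F hF := by
  obtain ⟨F, hF, h⟩ := f.2
  exact ⟨F, hF, ext' h⟩

theorem unit_iff (f : HD) : (∃ y, f * y = 1) ↔ ∀ z, f.1 z ≠ 0 := by
  constructor
  · rintro ⟨y, hy⟩ z hz
    have h1 : (f * y).1 z = 1 := by rw [hy]; rfl
    rw [mul_val, hz, zero_mul] at h1
    exact zero_ne_one h1
  · intro h
    obtain ⟨F, hF, rfl⟩ := rep f
    refine ⟨mk (fun z => (F z)⁻¹) (hF.inv fun z hz => h ⟨z, hz⟩), ?_⟩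
    apply ext'
    intro z
    rw [mul_val, mk_apply, mk_apply, one_val]
    exact mul_inv_cancel₀ (h z)

/-- the function `z - a`. -/
def X (a : ℂ) : HD := mk (fun z => z - a) (by fun_prop)

@[simp] theorem X_val (a : ℂ) (z : ball (0 : ℂ) 1) : (X a).1 z = z - a := rfl

theorem X_dvd (a : ball (0 : ℂ) 1) (f : HD) : (∃ y, f = X a * y) ↔ f.1 a = 0 := by
  constructor
  · rintro ⟨y, rfl⟩
    simp
  · intro h
    obtain ⟨F, hF, rfl⟩ := rep f
    rw [mk_apply] at h
    refine ⟨mk (dslope F a) ((differentiableOn_dslope (isOpen_ball.mem_nhds a.2)).mpr hF), ?_⟩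
    apply ext'
    intro z
    have := sub_smul_dslope F a z
    rw [h, sub_zero, smul_eq_mul] at this
    rw [mul_val, mk_apply, mk_apply, X_val, this]

/-- irreducible elements. -/
def Irr (p : HD) : Prop :=
  (¬ ∃ y, p * y = 1) ∧ ∀ a b, p = a * b → (∃ y, a * y = 1) ∨ (∃ y, b * y = 1)

theorem Irr_X (a : ball (0 : ℂ) 1) : Irr (X a) := by
  constructor
  · rw [unit_iff]
    intro h
    exact h a (by simp)
  · have key : ∀ u v : HD, X a = u * v → u.1 a = 0 → ∃ y, v * y = 1 := by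
      intro u v huv hu
      obtain ⟨u', rfl⟩ := (X_dvd a u).mpr hu
      rw [unit_iff]
      have hne : ∀ z : ball (0 : ℂ) 1, z ≠ a → (u' * v).1 z = 1 := by
        intro z hz
        have h1 : (X a).1 z = (X a * u' * v).1 z := by rw [← huv]
        rw [mul_val, mul_val, X_val] at h1
        have h2 : (z : ℂ) - a ≠ 0 := sub_ne_zero.mpr (fun h => hz (Subtype.ext h))
        rw [mul_val]
        apply mul_left_cancel₀ h2
        linear_combination -h1
      have hall : ∀ z : ball (0 : ℂ) 1, (u' * v).1 z = 1 := by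
        intro z
        by_cases hz : z = a
        · subst hz
          obtain ⟨W, hW, hWe⟩ := rep (u' * v)
          rw [hWe, mk_apply]
          have hc : ContinuousAt W z := (hW.differentiableAt (isOpen_ball.mem_nhds z.2)).continuousAt
          have h1 : Tendsto W (𝓝[≠] (z : ℂ)) (𝓝 (W z)) := hc.tendsto.mono_left nhdsWithin_le_nhds
          have h2 : ∀ᶠ x in 𝓝[≠] (z : ℂ), W x = 1 := by
            filter_upwards [self_mem_nhdsWithin,
              nhdsWithin_le_nhds (isOpen_ball.mem_nhds z.2)] with x hx hx1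
            have := hne ⟨x, hx1⟩ (fun h => hx (congrArg Subtype.val h))
            rwa [hWe, mk_apply] at this
          have h3 : Tendsto W (𝓝[≠] (z : ℂ)) (𝓝 1) :=
            tendsto_const_nhds.congr' (h2.mono fun x hx => hx.symm)
          exact tendsto_nhds_unique h1 h3
        · exact hne z hz
      intro z hz
      have := hall z
      rw [mul_val, hz, mul_zero] at this
      exact zero_ne_one this
    intro u v huv
    have h0 : u.1 a * v.1 a = 0 := by
      have : (X a).1 a = (u * v).1 a := by rw [← huv]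
      rw [mul_val, X_val, sub_self] at this
      exact this.symm
    rcases mul_eq_zero.mp h0 with h | h
    · right; exact key u v huv h
    · left; exact key v u (by rw [huv, mul_comm]) h

theorem Irr_pt {p : HD} (hp : Irr p) :
    ∃ a : ball (0 : ℂ) 1, ∀ f : HD, (∃ y, f = p * y) ↔ f.1 a = 0 := by
  obtain ⟨h1, h2⟩ := hp
  rw [unit_iff] at h1
  push Not at h1
  obtain ⟨a, ha⟩ := h1
  obtain ⟨u, hu⟩ := (X_dvd a p).mpr ha
  have hun : ∃ y, u * y = 1 := by
    rcases h2 _ _ hu with h | h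
    · exact absurd h (Irr_X a).1
    · exact h
  obtain ⟨y, hy⟩ := hun
  refine ⟨a, fun f => ?_⟩
  rw [← X_dvd]
  constructor
  · rintro ⟨k, rfl⟩
    exact ⟨u * k, by rw [hu, mul_assoc]⟩
  · rintro ⟨k, rfl⟩
    refine ⟨y * k, ?_⟩
    rw [hu]
    linear_combination (-(X (a : ℂ)) * k) * hy

end Pool.Agent.V11234.HD
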