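import Mathlib
import Pool.Agent.V11234.HD.Main2
import Pool.Agent.V11234.HD.Ring
import Pool.Agent.V11234.HD.Def

set_option autoImplicit false

namespace Pool.Agent.V11234.HD.Const

open Metric Set Complex Filter Topology Pool.Agent.V11234.HD

/-- The ring of holomorphic functions on the open unit disc as a structure for the
language of rings. -/
noncomputable instance : FirstOrder.Ring.CompatibleRing HD := FirstOrder.Ring.compatibleRingOfRing HD

/-- `g` and `g - 1` are units. -/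
def FF (g : HD) : Prop := (∃ y, g * y = 1) ∧ (∃ y, (g - 1) * y = 1)

theorem FF_iff {G : ℂ → ℂ} (hG : DifferentiableOn ℂ G (ball 0 1)) : FF (mk G hG) ↔ Omit G := by
  unfold FF Omit
  rw [unit_iff, unit_iff]
  constructor
  · rintro ⟨h0, h1⟩
    refine ⟨hG, fun z hz => h0 ⟨z, hz⟩, fun z hz h => h1 ⟨z, hz⟩ ?_⟩
    rw [sub_val, mk_apply, one_val]
    exact sub_eq_zero.mpr h
  · rintro ⟨_, h0, h1⟩
    refine ⟨fun z => h0 z z.2, fun z h => h1 z z.2 ?_⟩
    rw [sub_val, mk_apply, one_val] at h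
    exact sub_eq_zero.mp h

theorem FF_rep {g : HD} (hg : FF g) : ∃ G : ℂ → ℂ, ∃ h : Omit G, g = mk G h.1 := by
  obtain ⟨G, hG, rfl⟩ := rep g
  exact ⟨G, (FF_iff hG).mp hg, rfl⟩

/-- Divisibility. -/
def Dv (p g : HD) : Prop := ∃ y, g = p * y

/-- The core of the formula. -/
def Core (f p q r : HD) : Prop :=
  ∀ g, FF g → Dv p (g - f) → ∃ h, FF h ∧ Dv q (h - f) ∧ Dv r (h - g)

/-- The formula. -/
def Q (f : HD) : Prop :=
  f = 0 ∨ f = 1 ∨ (FF f ∧ ∀ p q r, Irr p → Irr q → Irr r → Core f p q r ∨ Core f q p r)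

theorem core_iff {F : ℂ → ℂ} (hF : DifferentiableOn ℂ F (ball 0 1)) {p q r : HD}
    {a b c : ball (0 : ℂ) 1}
    (hp : ∀ f : HD, (∃ y, f = p * y) ↔ f.1 a = 0) (hq : ∀ f : HD, (∃ y, f = q * y) ↔ f.1 b = 0)
    (hr : ∀ f : HD, (∃ y, f = r * y) ↔ f.1 c = 0) :
    Core (mk F hF) p q r ↔
      ∀ g : ℂ → ℂ, Omit g → g a = F a → ∃ h : ℂ → ℂ, Omit h ∧ h b = F b ∧ h c = g c := by
  unfold Core Dv
  constructor
  · intro h g hg hga
    obtain ⟨k, hk, h1, h2⟩ := h (mk g hg.1) ((FF_iff hg.1).mpr hg)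
      ((hp _).mpr (by rw [sub_val, mk_apply, mk_apply, hga, sub_self]))
    obtain ⟨K, hK, rfl⟩ := FF_rep hk
    rw [hq, sub_val, mk_apply, mk_apply, sub_eq_zero] at h1
    rw [hr, sub_val, mk_apply, mk_apply, sub_eq_zero] at h2
    exact ⟨K, hK, h1, h2⟩
  · intro h g hg hga
    obtain ⟨G, hG, rfl⟩ := FF_rep hg
    rw [hp, sub_val, mk_apply, mk_apply, sub_eq_zero] at hga
    obtain ⟨K, hK, h1, h2⟩ := h G hG hga
    refine ⟨mk K hK.1, (FF_iff hK.1).mpr hK, ?_, ?_⟩
    · rw [hq, sub_val, mk_apply, mk_apply, sub_eq_zero]; exact h1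
    · rw [hr, sub_val, mk_apply, mk_apply, sub_eq_zero]; exact h2

theorem Q_iff (f : HD) : Q f ↔ ∃ c : ℂ, ∀ z, f.1 z = c := by
  constructor
  · rintro (rfl | rfl | ⟨hf, hQ⟩)
    · exact ⟨0, fun z => rfl⟩
    · exact ⟨1, fun z => rfl⟩
    · obtain ⟨F, hF, rfl⟩ := FF_rep hf
      have hder : ∀ c ∈ ball (0 : ℂ) 1, deriv F c = 0 := by
        by_contra hcon
        push Not at hcon
        obtain ⟨a, ha, b, hb, c, hc, ⟨G, hG, hGa, hGH⟩, ⟨G', hG', hGb, hGH'⟩⟩ := main_pts hF hcon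
        rcases hQ (X a) (X b) (X c) (Irr_X ⟨a, ha⟩) (Irr_X ⟨b, hb⟩) (Irr_X ⟨c, hc⟩) with h | h
        · rw [core_iff hF.1 (X_dvd ⟨a, ha⟩) (X_dvd ⟨b, hb⟩) (X_dvd ⟨c, hc⟩)] at h
          obtain ⟨H, hH, h1, h2⟩ := h G hG hGa
          exact hGH H hH h1 h2
        · rw [core_iff hF.1 (X_dvd ⟨b, hb⟩) (X_dvd ⟨a, ha⟩) (X_dvd ⟨c, hc⟩)] at h
          obtain ⟨H, hH, h1, h2⟩ := h G' hG' hGb
          exact hGH' H hH h1 h2
      have h00 : (0 : ℂ) ∈ ball (0 : ℂ) 1 := mem_ball_self one_pos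
      refine ⟨F 0, fun z => ?_⟩
      rw [mk_apply]
      refine (convex_ball (0 : ℂ) 1).is_const_of_fderivWithin_eq_zero (𝕜 := ℂ) hF.1 ?_ z.2 h00
      intro x hx
      have h4 : HasDerivAt F 0 x := by
        rw [← hder x hx]
        exact (hF.1.differentiableAt (isOpen_ball.mem_nhds hx)).hasDerivAt
      have h5 := h4.hasFDerivAt.hasFDerivWithinAt (s := ball (0 : ℂ) 1)
      rw [h5.fderivWithin (isOpen_ball.uniqueDiffWithinAt hx)]
      ext
      simp
  · rintro ⟨w, hw⟩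
    by_cases h0 : w = 0
    · left
      apply ext'
      intro z
      rw [hw, h0, zero_val]
    by_cases h1 : w = 1
    · right; left
      apply ext'
      intro z
      rw [hw, h1, one_val]
    right; right
    have hf : f = mk (fun _ => w) (differentiableOn_const _) := ext' hw
    have hom : Omit (fun _ => w) := ⟨differentiableOn_const _, fun _ _ => h0, fun _ _ => h1⟩
    refine ⟨by rw [hf]; exact (FF_iff _).mpr hom, ?_⟩
    intro p q r hp hq hr
    obtain ⟨a, ha⟩ := Irr_pt hp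
    obtain ⟨b, hb⟩ := Irr_pt hq
    obtain ⟨c, hc⟩ := Irr_pt hr
    rw [hf, core_iff _ ha hb hc, core_iff _ hb ha hc]
    exact const_pts (mem_ball_zero_iff.mp a.2) (mem_ball_zero_iff.mp b.2) (mem_ball_zero_iff.mp c.2)

theorem def_unit : Def1 (fun f : HD => ∃ y, f * y = 1) :=
  Def.ex (Def.eq (.mul (.var _) (.var _)) .one)

theorem def_FF : Def1 FF :=
  Def.and (def_unit.app (.var _)) (def_unit.app (.sub (.var _) .one))

theorem def_Dv : Def2 Dv := Def.ex (Def.eq (.var _) (.mul (.var _) (.var _)))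

theorem def_Irr : Def1 Irr := by
  unfold Irr
  refine Def.and (Def.not (def_unit.app (.var _))) (Def.all (Def.all (Def.imp ?_ ?_)))
  · exact Def.eq (.var _) (.mul (.var _) (.var _))
  · exact Def.or (def_unit.app (.var _)) (def_unit.app (.var _))

theorem def_Core : Def4 Core := by
  unfold Core
  refine Def.all (Def.imp (def_FF.app (.var _)) (Def.imp (def_Dv.app (.var _)
    (.sub (.var _) (.var _))) (Def.ex (Def.and (def_FF.app (.var _)) (Def.and
    (def_Dv.app (.var _) (.sub (.var _) (.var _)))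
    (def_Dv.app (.var _) (.sub (.var _) (.var _))))))))

theorem def_Q : Def1 Q := by
  unfold Q
  refine Def.or (Def.eq (.var _) .zero) (Def.or (Def.eq (.var _) .one) (Def.and
    (def_FF.app (.var _)) (Def.all (Def.all (Def.all (Def.imp (def_Irr.app (.var _))
    (Def.imp (def_Irr.app (.var _)) (Def.imp (def_Irr.app (.var _)) (Def.or ?_ ?_)))))))))
  · exact def_Core.app (.var _) (.var _) (.var _) (.var _)
  · exact def_Core.app (.var _) (.var _) (.var _) (.var _)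

end Pool.Agent.V11234.HD.Const
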