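import Mathlib
import Pool.Agent.V11234.HD.Ring

set_option autoImplicit false

namespace Pool.Agent.V11234.HD

open Metric Set Complex Filter Topology ComplexConjugate

/-- Algebraic characterisation of the unit disc. -/
theorem disc_char {U : Set ℂ} (ho : IsOpen U) (h0 : (0 : ℂ) ∈ U)
    (hmul : ∀ a ∈ U, ∀ b ∈ U, a * b ∈ U) (hinv : ∀ a b, a ∈ U → a * b = 1 → b ∉ U)
    (hbd : ∀ a b c, a * b = 1 → a ∉ U → b ∉ U → c ∈ U → a * c ∈ U) : U = ball 0 1 := by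
  obtain ⟨δ, hδ, hδU⟩ := Metric.isOpen_iff.mp ho 0 h0
  have hbound : ∀ a ∈ U, ‖a‖ ≤ δ⁻¹ := by
    intro a ha
    by_contra hcon
    push Not at hcon
    have ha0 : a ≠ 0 := by
      rintro rfl
      rw [norm_zero] at hcon
      exact absurd hcon (not_lt.mpr (by positivity))
    have hap : 0 < ‖a‖ := norm_pos_iff.mpr ha0
    refine hinv a a⁻¹ ha (mul_inv_cancel₀ ha0) (hδU ?_)
    rw [mem_ball_zero_iff, norm_inv]
    rw [inv_lt_comm₀ hap hδ]
    exact hcon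
  have hcl : U ⊆ closedBall 0 1 := by
    intro a ha
    rw [mem_closedBall_zero_iff]
    by_contra hcon
    push Not at hcon
    have hpow : ∀ n : ℕ, a ^ (n + 1) ∈ U := by
      intro n
      induction n with
      | zero => simpa using ha
      | succ n ih => rw [pow_succ]; exact hmul _ ih _ ha
    obtain ⟨n, hn⟩ := pow_unbounded_of_one_lt (δ⁻¹) hcon
    have h1 := hbound _ (hpow n)
    rw [norm_pow] at h1
    have h2 : ‖a‖ ^ n ≤ ‖a‖ ^ (n + 1) := pow_le_pow_right₀ hcon.le (Nat.le_succ n)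
    linarith
  have hsub : U ⊆ ball 0 1 := by
    rw [← interior_closedBall (0 : ℂ) one_ne_zero]
    exact interior_maximal hcl ho
  refine Subset.antisymm hsub ?_
  intro a ha
  rw [mem_ball_zero_iff] at ha
  by_contra haU
  have ha0 : a ≠ 0 := by
    rintro rfl
    exact haU h0
  have hap : 0 < ‖a‖ := norm_pos_iff.mpr ha0
  have hgt : 1 < ‖a⁻¹‖ := by
    rw [norm_inv]; exact (one_lt_inv₀ hap).mpr ha
  have haU' : a⁻¹ ∉ U := by
    intro h
    have := hsub h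
    rw [mem_ball_zero_iff] at this
    linarith
  have hit : ∀ n : ℕ, (a⁻¹) ^ n * ((δ / 2 : ℝ) : ℂ) ∈ U := by
    intro n
    induction n with
    | zero =>
      rw [pow_zero, one_mul]
      apply hδU
      rw [mem_ball_zero_iff, Complex.norm_real, Real.norm_of_nonneg (by positivity)]
      linarith
    | succ n ih =>
      have := hbd a⁻¹ a _ (inv_mul_cancel₀ ha0) haU' haU ih
      rwa [← mul_assoc, ← pow_succ'] at this
  obtain ⟨n, hn⟩ := pow_unbounded_of_one_lt (2 * δ⁻¹) hgt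
  have h1 := hsub (hit n)
  rw [mem_ball_zero_iff, norm_mul, norm_pow, Complex.norm_real,
    Real.norm_of_nonneg (by positivity)] at h1
  have h2 : 2 * δ⁻¹ * (δ / 2) < ‖a⁻¹‖ ^ n * (δ / 2) := by gcongr
  have h3 : 2 * δ⁻¹ * (δ / 2) = 1 := by field_simp
  linarith

/-- Multiplicative holomorphic functions on the disc are powers. -/
theorem mult_pow {K : ℂ → ℂ} (hK : DifferentiableOn ℂ K (ball 0 1))
    (hmul : ∀ a ∈ ball (0 : ℂ) 1, ∀ b ∈ ball (0 : ℂ) 1, K (a * b) = K a * K b)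
    (hne : ∃ z ∈ ball (0 : ℂ) 1, K z ≠ 0) : ∃ n : ℕ, ∀ z ∈ ball (0 : ℂ) 1, K z = z ^ n := by
  have h00 : (0 : ℂ) ∈ ball (0 : ℂ) 1 := mem_ball_self one_pos
  have han : AnalyticOnNhd ℂ K (ball 0 1) := hK.analyticOnNhd isOpen_ball
  have hnev : ¬ ∀ᶠ z in 𝓝 (0 : ℂ), K z = 0 := by
    intro h
    obtain ⟨z, hz, hz0⟩ := hne
    exact hz0 (han.eqOn_zero_of_preconnected_of_eventuallyEq_zero
      (convex_ball (0 : ℂ) 1).isPreconnected h00 h hz)
  obtain ⟨n, g, hg, hg0, hge⟩ := (han 0 h00).exists_eventuallyEq_pow_smul_nonzero_iff.mpr hnev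
  refine ⟨n, fun a ha => ?_⟩
  have ht : Tendsto (fun b : ℂ => a * b) (𝓝[≠] 0) (𝓝 0) := by
    have : Tendsto (fun b : ℂ => a * b) (𝓝 0) (𝓝 (a * 0)) := (continuous_const_mul a).tendsto 0
    rw [mul_zero] at this
    exact this.mono_left nhdsWithin_le_nhds
  have h1 : ∀ᶠ b in 𝓝[≠] (0 : ℂ), a ^ n * g (a * b) = K a * g b := by
    filter_upwards [ht.eventually hge, nhdsWithin_le_nhds hge, self_mem_nhdsWithin,
      nhdsWithin_le_nhds (isOpen_ball.mem_nhds h00)] with b hb1 hb2 hb3 hb4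
    have h2 := hmul a ha b hb4
    rw [hb1, hb2] at h2
    simp only [sub_zero, smul_eq_mul] at h2
    have h3 : b ^ n ≠ 0 := pow_ne_zero _ hb3
    apply mul_left_cancel₀ h3
    rw [mul_pow] at h2
    linear_combination h2
  have h2 : Tendsto (fun b => a ^ n * g (a * b)) (𝓝[≠] 0) (𝓝 (a ^ n * g 0)) := by
    apply Tendsto.const_mul
    exact hg.continuousAt.tendsto.comp ht
  have h3 : Tendsto (fun b => K a * g b) (𝓝[≠] 0) (𝓝 (K a * g 0)) := by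
    apply Tendsto.const_mul
    exact hg.continuousAt.tendsto.mono_left nhdsWithin_le_nhds
  have h4 := tendsto_nhds_unique (h2.congr' h1) h3
  exact (mul_right_cancel₀ hg0 h4).symm

/-- A pair of mutually inverse conformal maps of the disc. -/
structure IsCoord (Φ Ψ : ℂ → ℂ) : Prop where
  dΦ : DifferentiableOn ℂ Φ (ball 0 1)
  mΦ : MapsTo Φ (ball 0 1) (ball 0 1)
  dΨ : DifferentiableOn ℂ Ψ (ball 0 1)
  mΨ : MapsTo Ψ (ball 0 1) (ball 0 1)
  left : ∀ z ∈ ball (0 : ℂ) 1, Ψ (Φ z) = z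
  right : ∀ z ∈ ball (0 : ℂ) 1, Φ (Ψ z) = z

/-- constants. -/
def cst (γ : ℂ) : HD := mk (fun _ => γ) (differentiableOn_const _)

@[simp] theorem cst_val (γ : ℂ) (z : ball (0 : ℂ) 1) : (cst γ).1 z = γ := rfl

theorem coord_of {Φ : ℂ → ℂ} (hΦ : DifferentiableOn ℂ Φ (ball 0 1))
    (hirr : ∀ γ : ℂ, (∃ y, (mk Φ hΦ - cst γ) * y = 1) ∨ Irr (mk Φ hΦ - cst γ))
    (h0 : ∃ z ∈ ball (0 : ℂ) 1, Φ z = 0)
    (hmul : ∀ a b : ℂ, (∃ z ∈ ball (0 : ℂ) 1, Φ z = a) → (∃ z ∈ ball (0 : ℂ) 1, Φ z = b) →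
      ∃ z ∈ ball (0 : ℂ) 1, Φ z = a * b)
    (hinv : ∀ a b : ℂ, (∃ z ∈ ball (0 : ℂ) 1, Φ z = a) → a * b = 1 →
      ¬ ∃ z ∈ ball (0 : ℂ) 1, Φ z = b)
    (hbd : ∀ a b c : ℂ, a * b = 1 → (¬ ∃ z ∈ ball (0 : ℂ) 1, Φ z = a) →
      (¬ ∃ z ∈ ball (0 : ℂ) 1, Φ z = b) → (∃ z ∈ ball (0 : ℂ) 1, Φ z = c) →
      ∃ z ∈ ball (0 : ℂ) 1, Φ z = a * c) :
    ∃ Ψ : ℂ → ℂ, IsCoord Φ Ψ ∧ ∀ γ : ℂ, (hγ : ‖γ‖ < 1) → ∀ f : HD,
      (∃ y, f = (mk Φ hΦ - cst γ) * y) ↔ ∀ z : ball (0 : ℂ) 1, z.1 = Ψ γ → f.1 z = 0 := by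
  -- pointwise analysis
  have hpt : ∀ z0 : ball (0 : ℂ) 1, (∀ f : HD, (∃ y, f = (mk Φ hΦ - cst (Φ z0)) * y) ↔
      f.1 z0 = 0) ∧ deriv Φ z0 ≠ 0 ∧ ∀ z ∈ ball (0 : ℂ) 1, Φ z = Φ z0 → z = z0 := by
    intro z0
    have hI : Irr (mk Φ hΦ - cst (Φ z0)) := by
      rcases hirr (Φ z0) with h | h
      · rw [unit_iff] at h
        exact absurd (by rw [sub_val, mk_apply, cst_val, sub_self]) (h z0)
      · exact h
    obtain ⟨a, ha⟩ := Irr_pt hI
    obtain ⟨y, hy⟩ := (ha (X a)).mpr (by simp)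
    have hz : ∀ z : ball (0 : ℂ) 1, Φ z = Φ z0 → z = a := by
      intro z hz
      have h1 : (X a).1 z = ((mk Φ hΦ - cst (Φ z0)) * y).1 z := by rw [← hy]
      rw [mul_val, sub_val, mk_apply, cst_val, hz, sub_self, zero_mul, X_val] at h1
      exact Subtype.ext (sub_eq_zero.mp h1)
    have hza : z0 = a := hz z0 rfl
    subst hza
    refine ⟨ha, ?_, ?_⟩
    · obtain ⟨Y, hY, rfl⟩ := rep y
      intro hd
      have hΦd : HasDerivAt Φ 0 (z0 : ℂ) := by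
        have := (hΦ.differentiableAt (isOpen_ball.mem_nhds z0.2)).hasDerivAt
        rwa [hd] at this
      have hYd := (hY.differentiableAt (isOpen_ball.mem_nhds z0.2)).hasDerivAt
      have h1 := (hΦd.sub_const (Φ z0)).fun_mul hYd
      rw [sub_self, zero_mul, zero_mul, add_zero] at h1
      have h2 : (fun z : ℂ => z - z0) =ᶠ[𝓝 (z0 : ℂ)] fun z => (Φ z - Φ z0) * Y z := by
        filter_upwards [isOpen_ball.mem_nhds z0.2] with z hz
        have h3 : (X z0).1 ⟨z, hz⟩ = ((mk Φ hΦ - cst (Φ z0)) * mk Y hY).1 ⟨z, hz⟩ := by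
          rw [← hy]
        simpa using h3
      have h3 : HasDerivAt (fun z : ℂ => z - z0) 0 (z0 : ℂ) := h1.congr_of_eventuallyEq h2
      have h4 : HasDerivAt (fun z : ℂ => z - z0) 1 (z0 : ℂ) := (hasDerivAt_id' _).sub_const _
      exact zero_ne_one (h3.unique h4)
    · intro z hz1 hz2
      exact congrArg Subtype.val (hz ⟨z, hz1⟩ hz2)
  have hnhds : ∀ z0 ∈ ball (0 : ℂ) 1, map Φ (𝓝 z0) = 𝓝 (Φ z0) := by
    intro z0 hz0
    have h1 : AnalyticAt ℂ Φ z0 := hΦ.analyticOnNhd isOpen_ball z0 hz0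
    exact (h1.hasStrictDerivAt).map_nhds_eq (hpt ⟨z0, hz0⟩).2.1
  have hU : {γ : ℂ | ∃ z ∈ ball (0 : ℂ) 1, Φ z = γ} = ball 0 1 := by
    apply disc_char
    · rw [isOpen_iff_mem_nhds]
      rintro _ ⟨z0, hz0, rfl⟩
      rw [← hnhds z0 hz0, mem_map]
      filter_upwards [isOpen_ball.mem_nhds hz0] with z hz
      exact ⟨z, hz, rfl⟩
    · exact h0
    · intro a ha b hb; exact hmul a b ha hb
    · exact hinv
    · exact hbd
  have hmem : ∀ γ : ℂ, ‖γ‖ < 1 → ∃ z ∈ ball (0 : ℂ) 1, Φ z = γ := by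
    intro γ hγ
    have : γ ∈ {γ : ℂ | ∃ z ∈ ball (0 : ℂ) 1, Φ z = γ} := by
      rw [hU, mem_ball_zero_iff]; exact hγ
    exact this
  have hmΦ : MapsTo Φ (ball 0 1) (ball 0 1) := by
    intro z hz
    have : Φ z ∈ {γ : ℂ | ∃ z ∈ ball (0 : ℂ) 1, Φ z = γ} := ⟨z, hz, rfl⟩
    rwa [hU] at this
  set Ψ : ℂ → ℂ := Function.invFunOn Φ (ball 0 1) with hΨ
  have hmΨ : MapsTo Ψ (ball 0 1) (ball 0 1) := by
    intro γ hγ
    exact Function.invFunOn_mem (hmem γ (by simpa using hγ))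
  have hright : ∀ z ∈ ball (0 : ℂ) 1, Φ (Ψ z) = z := by
    intro γ hγ
    exact Function.invFunOn_eq (hmem γ (by simpa using hγ))
  have hleft : ∀ z ∈ ball (0 : ℂ) 1, Ψ (Φ z) = z := by
    intro z hz
    exact (hpt ⟨z, hz⟩).2.2 _ (hmΨ (hmΦ hz)) (hright _ (hmΦ hz))
  have hcont : ∀ γ ∈ ball (0 : ℂ) 1, ContinuousAt Ψ γ := by
    intro γ hγ
    have h1 := hnhds _ (hmΨ hγ)
    rw [hright γ hγ] at h1
    unfold ContinuousAt
    rw [← h1, tendsto_map'_iff]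
    apply tendsto_id.congr'
    filter_upwards [isOpen_ball.mem_nhds (hmΨ hγ)] with z hz
    exact (hleft z hz).symm
  refine ⟨Ψ, ⟨hΦ, hmΦ, ?_, hmΨ, hleft, hright⟩, ?_⟩
  · intro γ hγ
    have h1 := (hΦ.differentiableAt (isOpen_ball.mem_nhds (hmΨ hγ))).hasDerivAt
    refine (h1.of_local_left_inverse (hcont γ hγ) (hpt ⟨_, hmΨ hγ⟩).2.1
      ?_).differentiableAt.differentiableWithinAt
    filter_upwards [isOpen_ball.mem_nhds hγ] with z hz
    exact hright z hz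
  · intro γ hγ f
    have hγb : γ ∈ ball (0 : ℂ) 1 := by rwa [mem_ball_zero_iff]
    have h1 := (hpt ⟨Ψ γ, hmΨ hγb⟩).1 f
    simp only at h1
    rw [hright γ hγb] at h1
    rw [h1]
    constructor
    · intro h z hz
      have : z = ⟨Ψ γ, hmΨ hγb⟩ := Subtype.ext hz
      rw [this]; exact h
    · intro h
      exact h _ rfl

end Pool.Agent.V11234.HD
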