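import Mathlib
import Pool.Agent.V11234.HD.Const
import Pool.Agent.V11234.HD.Char
import Pool.Agent.V11234.HD.Coord

set_option autoImplicit false

namespace Pool.Agent.V11234.HD.Adm

open Metric Set Complex Filter Topology Pool.Agent.V11234.HD Pool.Agent.V11234.HD.Const

/-- units -/
def Un (f : HD) : Prop := ∃ y, f * y = 1
/-- `c` is a constant whose value is attained by `φ`. -/
def In (φ c : HD) : Prop := Q c ∧ ¬ Un (φ - c)
/-- `g` takes the value `d` where `φ` takes the value `c`. -/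
def Vl (φ g c d : HD) : Prop := ∃ y, g - d = (φ - c) * y
/-- the values of `g` are among the values of `φ`. -/
def Into (φ g : HD) : Prop := ∀ c d, In φ c → Q d → Vl φ g c d → In φ d
/-- `g` is the dilation of `f` by `ρ`, in the coordinate `φ`. -/
def Dil (φ f ρ g : HD) : Prop := ∀ c d, In φ c → Q d → (Vl φ g c d ↔ Vl φ f (ρ * c) d)
/-- `G` is multiplicative in the coordinate `φ`. -/
def Mult (φ G : HD) : Prop := G ≠ 0 ∧ ∀ c c' d d', In φ c → In φ c' → Q d → Q d' →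
  Vl φ G c d → Vl φ G c' d' → Vl φ G (c * c') (d * d')
/-- comparison. -/
def Cmp (φ h G η : HD) : Prop :=
  ∃ a b k, Q a ∧ Q b ∧ In φ k ∧ Vl φ h 0 a ∧ Vl φ G η b ∧ b = k * a
/-- existence of the minorant. -/
def Good (φ f ρ η G : HD) : Prop :=
  ∃ h g, Dil φ f ρ g ∧ Un h ∧ Into φ h ∧ Into φ (h * g) ∧ Cmp φ h G η
/-- non-admissibility in the coordinate `φ`. -/
def NonAdm (φ f : HD) : Prop := ∃ G, Mult φ G ∧ ∀ ρ η, In φ ρ → Q η → η ≠ 0 → In φ (η + η) →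
  (∀ ζ, In φ ζ → In φ (ρ + η * ζ)) → Good φ f ρ η G
/-- coordinates. -/
def Coord (φ : HD) : Prop := (∀ c, Q c → Un (φ - c) ∨ Irr (φ - c)) ∧ In φ 0 ∧
  (∀ a b, In φ a → In φ b → In φ (a * b)) ∧
  (∀ a b, In φ a → Q b → a * b = 1 → ¬ In φ b) ∧
  (∀ a b c, Q a → Q b → a * b = 1 → ¬ In φ a → ¬ In φ b → In φ c → In φ (a * c))
/-- the formula. -/
def AdmF (f : HD) : Prop := ∃ φ, Coord φ ∧ ¬ NonAdm φ f

theorem Q_cst (c : HD) : Q c ↔ ∃ γ, c = cst γ := by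
  rw [Q_iff]
  constructor
  · rintro ⟨γ, h⟩; exact ⟨γ, ext' h⟩
  · rintro ⟨γ, rfl⟩; exact ⟨γ, fun _ => rfl⟩

theorem Q_cst' (γ : ℂ) : Q (cst γ) := (Q_cst _).mpr ⟨γ, rfl⟩

theorem cst_mul (a b : ℂ) : cst a * cst b = cst (a * b) := rfl
theorem cst_add (a b : ℂ) : cst a + cst b = cst (a + b) := rfl
theorem cst_zero : (0 : HD) = cst 0 := rfl
theorem cst_one : (1 : HD) = cst 1 := rfl

/-- the centre of the disc -/
def o : ball (0 : ℂ) 1 := ⟨0, mem_ball_self one_pos⟩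

theorem cst_inj {a b : ℂ} (h : cst a = cst b) : a = b := by
  have : (cst a).1 o = (cst b).1 o := by rw [h]
  simpa using this

theorem In_gen {Φ : ℂ → ℂ} (hΦ : DifferentiableOn ℂ Φ (ball 0 1)) (γ : ℂ) :
    In (mk Φ hΦ) (cst γ) ↔ ∃ z ∈ ball (0 : ℂ) 1, Φ z = γ := by
  unfold In Un
  rw [unit_iff]
  push Not
  constructor
  · rintro ⟨_, z, hz⟩
    rw [sub_val, mk_apply, cst_val, sub_eq_zero] at hz
    exact ⟨z, z.2, hz⟩
  · rintro ⟨z, hz, h⟩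
    refine ⟨Q_cst' γ, ⟨z, hz⟩, ?_⟩
    rw [sub_val, mk_apply, cst_val, sub_eq_zero]
    exact h

/-- specification of a coordinate. -/
structure Spec (φ : HD) (Φ Ψ : ℂ → ℂ) : Prop where mk' ::
  h : IsCoord Φ Ψ
  eq : φ = mk Φ h.dΦ
  dvd : ∀ γ : ℂ, ‖γ‖ < 1 → ∀ f : HD, (∃ y, f = (φ - cst γ) * y) ↔
    ∀ z : ball (0 : ℂ) 1, z.1 = Ψ γ → f.1 z = 0

theorem coord_spec {φ : HD} (h : Coord φ) : ∃ Φ Ψ, Spec φ Φ Ψ := by
  obtain ⟨h1, h2, h3, h4, h5⟩ := h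
  obtain ⟨Φ, hΦ, rfl⟩ := rep φ
  obtain ⟨Ψ, hΨ, hd⟩ := coord_of hΦ (fun γ => h1 _ (Q_cst' γ))
    (by rwa [cst_zero, In_gen] at h2)
    (by
      intro a b ha hb
      rw [← In_gen hΦ] at ha hb ⊢
      rw [← cst_mul]
      exact h3 _ _ ha hb)
    (by
      intro a b ha hab
      rw [← In_gen hΦ] at ha ⊢
      exact h4 _ _ ha (Q_cst' b) (by rw [cst_mul, hab, cst_one]))
    (by
      intro a b c hab ha hb hc
      rw [← In_gen hΦ] at ha hb hc ⊢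
      rw [← cst_mul]
      exact h5 _ _ _ (Q_cst' a) (Q_cst' b) (by rw [cst_mul, hab, cst_one]) ha hb hc)
  exact ⟨Φ, Ψ, hΨ, rfl, hd⟩

theorem coord_X : Coord (X 0) := by
  have hin : ∀ γ : ℂ, In (X 0) (cst γ) ↔ ‖γ‖ < 1 := by
    intro γ
    have := In_gen (Φ := fun z => z - 0) (by fun_prop) γ
    rw [X, this]
    constructor
    · rintro ⟨z, hz, rfl⟩
      simpa using hz
    · intro h
      exact ⟨γ, by simpa using h, by simp⟩
  have hin' : ∀ c : HD, In (X 0) c ↔ ∃ γ, c = cst γ ∧ ‖γ‖ < 1 := by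
    intro c
    constructor
    · intro h
      obtain ⟨γ, rfl⟩ := (Q_cst c).mp h.1
      exact ⟨γ, rfl, (hin γ).mp h⟩
    · rintro ⟨γ, rfl, h⟩
      exact (hin γ).mpr h
  refine ⟨?_, ?_, ?_, ?_, ?_⟩
  · intro c hc
    obtain ⟨γ, rfl⟩ := (Q_cst c).mp hc
    have hX : X 0 - cst γ = X γ := by
      apply ext'
      intro z
      simp
    rw [hX]
    by_cases hγ : ‖γ‖ < 1
    · right
      exact Irr_X ⟨γ, by simpa using hγ⟩
    · left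
      unfold Un
      rw [unit_iff]
      intro z hz
      rw [X_val, sub_eq_zero] at hz
      apply hγ
      rw [← hz]
      exact mem_ball_zero_iff.mp z.2
  · rw [cst_zero, hin]; simp
  · intro a b ha hb
    rw [hin'] at ha hb
    obtain ⟨a, rfl, ha⟩ := ha
    obtain ⟨b, rfl, hb⟩ := hb
    rw [cst_mul, hin, norm_mul]
    nlinarith [norm_nonneg a, norm_nonneg b]
  · intro a b ha _ hab hb
    rw [hin'] at ha hb
    obtain ⟨a, rfl, ha⟩ := ha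
    obtain ⟨b, rfl, hb⟩ := hb
    rw [cst_mul, cst_one] at hab
    have h1 := cst_inj hab
    have h2 : ‖a‖ * ‖b‖ = 1 := by rw [← norm_mul, h1, norm_one]
    nlinarith [norm_nonneg a, norm_nonneg b]
  · intro a b c ha hb hab hna hnb hc
    obtain ⟨a, rfl⟩ := (Q_cst a).mp ha
    obtain ⟨b, rfl⟩ := (Q_cst b).mp hb
    rw [hin'] at hc
    obtain ⟨c, rfl, hc⟩ := hc
    rw [hin] at hna hnb
    rw [cst_mul, cst_one] at hab
    have h1 := cst_inj hab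
    have h2 : ‖a‖ * ‖b‖ = 1 := by rw [← norm_mul, h1, norm_one]
    have h3 : ‖a‖ ≤ 1 := by nlinarith [norm_nonneg a, norm_nonneg b]
    rw [cst_mul, hin, norm_mul]
    nlinarith [norm_nonneg a, norm_nonneg c]

section
variable {φ : HD} {Φ Ψ : ℂ → ℂ}

theorem Spec.in_iff (S : Spec φ Φ Ψ) (γ : ℂ) : In φ (cst γ) ↔ ‖γ‖ < 1 := by
  rw [S.eq, In_gen]
  constructor
  · rintro ⟨z, hz, rfl⟩
    simpa using S.h.mΦ hz
  · intro h
    have hb : γ ∈ ball (0 : ℂ) 1 := by simpa using h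
    exact ⟨Ψ γ, S.h.mΨ hb, S.h.right γ hb⟩

theorem Spec.in_iff' (S : Spec φ Φ Ψ) (c : HD) : In φ c ↔ ∃ γ, c = cst γ ∧ ‖γ‖ < 1 := by
  constructor
  · intro h
    obtain ⟨γ, rfl⟩ := (Q_cst c).mp h.1
    exact ⟨γ, rfl, (S.in_iff γ).mp h⟩
  · rintro ⟨γ, rfl, h⟩
    exact (S.in_iff γ).mpr h

theorem Spec.vl_iff (S : Spec φ Φ Ψ) {γ : ℂ} (hγ : ‖γ‖ < 1) (δ : ℂ) {G : ℂ → ℂ}
    (hG : DifferentiableOn ℂ G (ball 0 1)) :
    Vl φ (mk G hG) (cst γ) (cst δ) ↔ G (Ψ γ) = δ := by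
  unfold Vl
  rw [S.dvd γ hγ]
  have hb : γ ∈ ball (0 : ℂ) 1 := by simpa using hγ
  constructor
  · intro h
    have := h ⟨Ψ γ, S.h.mΨ hb⟩ rfl
    rwa [sub_val, mk_apply, cst_val, sub_eq_zero] at this
  · intro h z hz
    rw [sub_val, mk_apply, cst_val, hz, h, sub_self]

theorem Spec.into_iff (S : Spec φ Φ Ψ) {G : ℂ → ℂ} (hG : DifferentiableOn ℂ G (ball 0 1)) :
    Into φ (mk G hG) ↔ ∀ z ∈ ball (0 : ℂ) 1, ‖G z‖ < 1 := by
  constructor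
  · intro h z hz
    have h1 : ‖Φ z‖ < 1 := by simpa using S.h.mΦ hz
    have := h (cst (Φ z)) (cst (G z)) ((S.in_iff _).mpr h1) (Q_cst' _)
      ((S.vl_iff h1 _ hG).mpr (by rw [S.h.left z hz]))
    exact (S.in_iff _).mp this
  · intro h c d hc hd hv
    rw [S.in_iff'] at hc
    obtain ⟨γ, rfl, hγ⟩ := hc
    obtain ⟨δ, rfl⟩ := (Q_cst d).mp hd
    rw [S.vl_iff hγ] at hv
    rw [S.in_iff, ← hv]
    exact h _ (S.h.mΨ (by simpa using hγ))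

theorem norm_mul_lt {a b : ℂ} (ha : ‖a‖ < 1) (hb : ‖b‖ < 1) : ‖a * b‖ < 1 := by
  rw [norm_mul]; nlinarith [norm_nonneg a, norm_nonneg b]

theorem Spec.dil_iff (S : Spec φ Φ Ψ) {F G : ℂ → ℂ} (hF : DifferentiableOn ℂ F (ball 0 1))
    (hG : DifferentiableOn ℂ G (ball 0 1)) {ρ : ℂ} (hρ : ‖ρ‖ < 1) :
    Dil φ (mk F hF) (cst ρ) (mk G hG) ↔ ∀ γ ∈ ball (0 : ℂ) 1, G (Ψ γ) = F (Ψ (ρ * γ)) := by
  constructor
  · intro h γ hγ
    have hγ1 : ‖γ‖ < 1 := by simpa using hγ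
    have := (h (cst γ) (cst (G (Ψ γ))) ((S.in_iff _).mpr hγ1) (Q_cst' _)).mp
      ((S.vl_iff hγ1 _ hG).mpr rfl)
    rw [cst_mul, S.vl_iff (norm_mul_lt hρ hγ1)] at this
    exact this.symm
  · intro h c d hc hd
    rw [S.in_iff'] at hc
    obtain ⟨γ, rfl, hγ⟩ := hc
    obtain ⟨δ, rfl⟩ := (Q_cst d).mp hd
    rw [cst_mul, S.vl_iff hγ, S.vl_iff (norm_mul_lt hρ hγ), h γ (by simpa using hγ)]

theorem Spec.mult_iff (S : Spec φ Φ Ψ) {G : ℂ → ℂ} (hG : DifferentiableOn ℂ G (ball 0 1)) :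
    Mult φ (mk G hG) ↔ ∃ n : ℕ, ∀ γ ∈ ball (0 : ℂ) 1, G (Ψ γ) = γ ^ n := by
  constructor
  · rintro ⟨hne, h⟩
    apply mult_pow (K := fun γ => G (Ψ γ)) (hG.comp S.h.dΨ S.h.mΨ)
    · intro a ha b hb
      have ha1 : ‖a‖ < 1 := by simpa using ha
      have hb1 : ‖b‖ < 1 := by simpa using hb
      have := h (cst a) (cst b) (cst (G (Ψ a))) (cst (G (Ψ b))) ((S.in_iff _).mpr ha1)
        ((S.in_iff _).mpr hb1) (Q_cst' _) (Q_cst' _) ((S.vl_iff ha1 _ hG).mpr rfl)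
        ((S.vl_iff hb1 _ hG).mpr rfl)
      rwa [cst_mul, cst_mul, S.vl_iff (norm_mul_lt ha1 hb1)] at this
    · by_contra hcon
      push Not at hcon
      apply hne
      apply ext'
      intro z
      rw [mk_apply, zero_val]
      have := hcon (Φ z) (S.h.mΦ z.2)
      rwa [S.h.left z z.2] at this
  · rintro ⟨n, hn⟩
    refine ⟨?_, ?_⟩
    · intro h0
      have hb : (1 / 2 : ℂ) ∈ ball (0 : ℂ) 1 := by
        rw [mem_ball_zero_iff]; norm_num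
      have h1 : (mk G hG).1 ⟨Ψ (1 / 2), S.h.mΨ hb⟩ = 0 := by rw [h0]; rfl
      rw [mk_apply, hn _ hb] at h1
      exact absurd h1 (pow_ne_zero _ (by norm_num))
    · intro c c' d d' hc hc' hd hd' hv hv'
      rw [S.in_iff'] at hc hc'
      obtain ⟨γ, rfl, hγ⟩ := hc
      obtain ⟨γ', rfl, hγ'⟩ := hc'
      obtain ⟨δ, rfl⟩ := (Q_cst d).mp hd
      obtain ⟨δ', rfl⟩ := (Q_cst d').mp hd'
      rw [S.vl_iff hγ, hn _ (by simpa using hγ)] at hv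
      rw [S.vl_iff hγ', hn _ (by simpa using hγ')] at hv'
      rw [cst_mul, cst_mul, S.vl_iff (norm_mul_lt hγ hγ'),
        hn _ (by rw [mem_ball_zero_iff]; exact norm_mul_lt hγ hγ'), mul_pow, hv, hv']

theorem disc_cond {ρ η : ℂ} (hρ : ‖ρ‖ < 1) (hη : η ≠ 0) :
    (∀ ζ : ℂ, ‖ζ‖ < 1 → ‖ρ + η * ζ‖ < 1) ↔ ‖η‖ ≤ 1 - ‖ρ‖ := by
  have hηn : 0 < ‖η‖ := norm_pos_iff.mpr hη
  constructor
  · intro h
    by_contra hcon
    push Not at hcon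
    -- direction
    obtain ⟨u, hu1, hu⟩ : ∃ u : ℂ, ‖u‖ = 1 ∧ ‖ρ + ((1 - ‖ρ‖ : ℝ) : ℂ) * u‖ = 1 := by
      by_cases h0 : ρ = 0
      · refine ⟨1, by simp, ?_⟩
        rw [h0]; simp
      · have hn : 0 < ‖ρ‖ := norm_pos_iff.mpr h0
        have hnc : (‖ρ‖ : ℂ) ≠ 0 := by exact_mod_cast hn.ne'
        refine ⟨ρ / ‖ρ‖, ?_, ?_⟩
        · rw [norm_div, Complex.norm_real, norm_norm, div_self hn.ne']
        · have h1 : ρ + ((1 - ‖ρ‖ : ℝ) : ℂ) * (ρ / ‖ρ‖) = ρ / ‖ρ‖ := by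
            push_cast
            field_simp
            ring
          rw [h1, norm_div, Complex.norm_real, norm_norm, div_self hn.ne']
    have h2 := h (((1 - ‖ρ‖ : ℝ) : ℂ) * u / η) (by
      rw [norm_div, norm_mul, hu1, mul_one, Complex.norm_real,
        Real.norm_of_nonneg (by linarith), div_lt_one hηn]
      exact hcon)
    rw [mul_div_cancel₀ _ hη] at h2
    linarith
  · intro h ζ hζ
    calc ‖ρ + η * ζ‖ ≤ ‖ρ‖ + ‖η * ζ‖ := norm_add_le _ _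
      _ = ‖ρ‖ + ‖η‖ * ‖ζ‖ := by rw [norm_mul]
      _ < 1 := by nlinarith

theorem Spec.good_iff (S : Spec φ Φ Ψ) {F G : ℂ → ℂ} (hF : DifferentiableOn ℂ F (ball 0 1))
    (hG : DifferentiableOn ℂ G (ball 0 1)) {n : ℕ} (hn : ∀ γ ∈ ball (0 : ℂ) 1, G (Ψ γ) = γ ^ n)
    {ρ η : ℂ} (hρ : ‖ρ‖ < 1) (hη : ‖η‖ < 1 / 2) :
    Good φ (mk F hF) (cst ρ) (cst η) (mk G hG) ↔
      ∃ k : ℂ → ℂ, DifferentiableOn ℂ k (ball 0 1) ∧
        (∀ z ∈ ball (0 : ℂ) 1, k z ≠ 0) ∧ (∀ z ∈ ball (0 : ℂ) 1, ‖k z‖ < 1) ∧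
        (∀ z ∈ ball (0 : ℂ) 1, ‖k z * F (Ψ (ρ * z))‖ < 1) ∧ ‖η‖ ^ n < ‖k 0‖ := by
  have hη1 : ‖η‖ < 1 := by linarith
  have hηb : η ∈ ball (0 : ℂ) 1 := by simpa using hη1
  have h00 : (0 : ℂ) ∈ ball (0 : ℂ) 1 := mem_ball_self one_pos
  have hρm : MapsTo (fun z : ℂ => ρ * z) (ball 0 1) (ball 0 1) := by
    intro z hz
    rw [mem_ball_zero_iff] at hz ⊢
    exact norm_mul_lt hρ hz
  constructor
  · rintro ⟨h, g, hdil, hun, hinto, hinto2, a, b, k, ha, hb, hk, hva, hvb, hbka⟩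
    obtain ⟨H, hH, rfl⟩ := rep h
    obtain ⟨g, hg, rfl⟩ := rep g
    obtain ⟨a, rfl⟩ := (Q_cst a).mp ha
    obtain ⟨b, rfl⟩ := (Q_cst b).mp hb
    rw [S.in_iff'] at hk
    obtain ⟨k, rfl, hk⟩ := hk
    rw [cst_zero, S.vl_iff (by simp)] at hva
    rw [S.vl_iff hη1, hn η hηb] at hvb
    rw [cst_mul] at hbka
    have hbka' := cst_inj hbka
    rw [S.dil_iff hF hg hρ] at hdil
    rw [S.into_iff] at hinto
    have hinto2' : Into φ (mk (fun z => H z * g z) (hH.mul hg)) := hinto2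
    rw [S.into_iff] at hinto2'
    unfold Un at hun
    rw [unit_iff] at hun
    refine ⟨fun γ => H (Ψ γ), hH.comp S.h.dΨ S.h.mΨ, fun γ hγ => hun ⟨_, S.h.mΨ hγ⟩,
      fun γ hγ => hinto _ (S.h.mΨ hγ), ?_, ?_⟩
    · intro γ hγ
      rw [← hdil γ hγ]
      exact hinto2' _ (S.h.mΨ hγ)
    · simp only
      have ha0 : a ≠ 0 := by
        rw [← hva]
        exact hun ⟨_, S.h.mΨ h00⟩
      rw [hva, ← norm_pow, hvb, hbka', norm_mul]
      have := norm_pos_iff.mpr ha0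
      nlinarith
  · rintro ⟨k, hk, hk0, hk1, hkF, hkn⟩
    have hk00 : k 0 ≠ 0 := hk0 0 h00
    have hFd : DifferentiableOn ℂ (fun z => F (Ψ (ρ * Φ z))) (ball 0 1) :=
      hF.comp (S.h.dΨ.comp ((differentiableOn_const ρ).mul S.h.dΦ)
        (fun z hz => hρm (S.h.mΦ hz))) (fun z hz => S.h.mΨ (hρm (S.h.mΦ hz)))
    have hHd : DifferentiableOn ℂ (fun z => k (Φ z)) (ball 0 1) := hk.comp S.h.dΦ S.h.mΦ
    refine ⟨mk (fun z => k (Φ z)) hHd, mk _ hFd, ?_, ?_, ?_, ?_, ?_⟩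
    · rw [S.dil_iff hF hFd hρ]
      intro γ hγ
      rw [S.h.right γ hγ]
    · unfold Un
      rw [unit_iff]
      intro z
      exact hk0 _ (S.h.mΦ z.2)
    · rw [S.into_iff]
      intro z hz
      exact hk1 _ (S.h.mΦ hz)
    · change Into φ (mk (fun z => k (Φ z) * F (Ψ (ρ * Φ z))) (hHd.mul hFd))
      rw [S.into_iff]
      intro z hz
      exact hkF _ (S.h.mΦ hz)
    · refine ⟨cst (k 0), cst (η ^ n), cst (η ^ n / k 0), Q_cst' _, Q_cst' _, ?_, ?_, ?_, ?_⟩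
      · rw [S.in_iff, norm_div, norm_pow, div_lt_one (norm_pos_iff.mpr hk00)]
        exact hkn
      · rw [cst_zero, S.vl_iff (by simp)]
        rw [S.h.right 0 h00]
      · rw [S.vl_iff hη1]
        exact hn η hηb
      · rw [cst_mul, div_mul_cancel₀ _ hk00]

theorem Spec.nonAdm_iff (S : Spec φ Φ Ψ) {F : ℂ → ℂ} (hF : DifferentiableOn ℂ F (ball 0 1)) :
    NonAdm φ (mk F hF) ↔ NA (fun z => F (Ψ z)) := by
  have hcond : ∀ ρ η : ℂ, ‖ρ‖ < 1 → η ≠ 0 →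
      ((∀ ζ, In φ ζ → In φ (cst ρ + cst η * ζ)) ↔ ‖η‖ ≤ 1 - ‖ρ‖) := by
    intro ρ η hρ hη
    rw [← disc_cond hρ hη]
    constructor
    · intro h ζ hζ
      have := h (cst ζ) ((S.in_iff _).mpr hζ)
      rwa [cst_mul, cst_add, S.in_iff] at this
    · intro h ζ hζ
      rw [S.in_iff'] at hζ
      obtain ⟨ζ, rfl, hζ⟩ := hζ
      rw [cst_mul, cst_add, S.in_iff]
      exact h ζ hζ
  have htwo : ∀ η : ℂ, In φ (cst η + cst η) ↔ ‖η‖ < 1 / 2 := by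
    intro η
    rw [cst_add, S.in_iff, ← two_mul, norm_mul, Complex.norm_ofNat]
    constructor <;> intro h <;> linarith
  constructor
  · rintro ⟨G, hmul, h⟩
    obtain ⟨G, hG, rfl⟩ := rep G
    obtain ⟨n, hn⟩ := (S.mult_iff hG).mp hmul
    refine ⟨n, ?_⟩
    intro ρ η hρ hη hη2 hηρ
    have h1 := h (cst ρ) (cst η) ((S.in_iff _).mpr hρ) (Q_cst' _)
      (by intro h0; rw [cst_zero] at h0; exact hη (cst_inj h0)) ((htwo η).mpr hη2)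
      ((hcond ρ η hρ hη).mpr hηρ)
    exact (S.good_iff hF hG hn hρ hη2).mp h1
  · rintro ⟨n, h⟩
    have hGd : DifferentiableOn ℂ (fun z => Φ z ^ n) (ball 0 1) := S.h.dΦ.pow n
    have hn : ∀ γ ∈ ball (0 : ℂ) 1, (fun z => Φ z ^ n) (Ψ γ) = γ ^ n := by
      intro γ hγ
      simp only
      rw [S.h.right γ hγ]
    refine ⟨mk _ hGd, (S.mult_iff hGd).mpr ⟨n, hn⟩, ?_⟩
    intro ρ η hρ hη hη0 hη2 hηρ
    rw [S.in_iff'] at hρ
    obtain ⟨ρ, rfl, hρ⟩ := hρ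
    obtain ⟨η, rfl⟩ := (Q_cst η).mp hη
    have hη0' : η ≠ 0 := by
      rintro rfl
      exact hη0 rfl
    rw [htwo] at hη2
    rw [hcond ρ η hρ hη0'] at hηρ
    rw [S.good_iff hF hGd hn hρ hη2]
    exact h ρ η hρ hη0' hη2 hηρ

end

theorem AdmF_iff {F : ℂ → ℂ} (hF : DifferentiableOn ℂ F (ball 0 1)) :
    AdmF (mk F hF) ↔ ¬ NA F := by
  have key : ∀ φ, Coord φ → (NonAdm φ (mk F hF) ↔ NA F) := by
    intro φ hφ
    obtain ⟨Φ, Ψ, S⟩ := coord_spec hφ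
    rw [S.nonAdm_iff hF]
    exact NA.iff_comp S.h.dΦ S.h.mΦ S.h.dΨ S.h.mΨ S.h.left
  constructor
  · rintro ⟨φ, hφ, h⟩
    rwa [key φ hφ] at h
  · intro h
    exact ⟨X 0, coord_X, by rwa [key _ coord_X]⟩

end Pool.Agent.V11234.HD.Adm
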